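import Pool.Agent.H235R3.WC.Step

/-!
# Client's strategy
-/

namespace Pool.Agent.H235R3.WC

open Vx

variable {n m : ℕ} {R : ℕ → Bool × ℕ → Prop} {W C : Finset Vx} {p q : Vx}

/-- The last part of the hypergraph is under control. -/
def KInv (m : ℕ) (R : ℕ → Bool × ℕ → Prop) (W C : Finset Vx) : Prop :=
  (∀ i < m, Unc W C (g i) ∧ Unc W C (h i)) ∨
    ∃ S : Finset ℕ, m ∈ S ∧ pot S (rung m h) W C < 1 ∧
      ∀ i < m, i ∉ S → ∀ c j, R i (c, j) → Fals j c W C

/-- The invariant. -/
def Inv (n m : ℕ) (R : ℕ → Bool × ℕ → Prop) (W C : Finset Vx) : Prop :=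
  Disjoint W C ∧ ((∃ l < n, (∀ j < l, Good m j W C) ∧ Bad m l W C) ∨
    ((∀ j < n, Good m j W C) ∧ KInv m R W C))

theorem disj (hd : Disjoint W C) (hp : Unc W C p) (hq : Unc W C q) (hpq : p ≠ q) :
    Disjoint (insert q W) (insert p C) := by
  rw [Finset.disjoint_insert_left, Finset.disjoint_insert_right, Finset.mem_insert, not_or]
  exact ⟨⟨hpq.symm, hq.2⟩, hp.1, hd⟩

theorem Bad.not_z {l : ℕ} (hd : Disjoint W C) (h : Bad m l W C) : z l ∉ W := by
  rcases h with h | h
  · exact h.1.1
  · exact fun h' => Finset.disjoint_left.1 hd h' h.1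

theorem Bad.lt_one {l : ℕ} (h : Bad m l W C) : PP m l W C < 1 := by
  rcases h with h | h
  · linarith [h.2]
  · exact h.2

/-- Waiter has not completed an edge. -/
theorem Inv.not_edge (hm : 0 < m) (h : Inv n m R W C) {e : Finset Vx} (he : Edge n m R e) :
    ¬ e ⊆ W := by
  intro hW
  obtain ⟨hd, h⟩ := h
  have hd' : ∀ v, v ∈ W → v ∉ C := fun v h1 h2 => Finset.disjoint_left.1 hd h1 h2
  -- a bound for the levels
  obtain ⟨l, hln, hG, hl⟩ : ∃ l ≤ n, (∀ j < l, Good m j W C) ∧
      ((l < n ∧ Bad m l W C) ∨ (l = n ∧ KInv m R W C)) := by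
    rcases h with ⟨l, hl, h1, h2⟩ | ⟨h1, h2⟩
    · exact ⟨l, hl.le, h1, Or.inl ⟨hl, h2⟩⟩
    · exact ⟨n, le_rfl, h1, Or.inr ⟨rfl, h2⟩⟩
  have hZ : ∀ k, Zs k ⊆ W → k ≤ n → k ≤ l := by
    intro k hk hkn
    rcases hl with ⟨_, hB⟩ | ⟨rfl, _⟩
    · by_contra hcon
      exact hB.not_z hd (hk (mem_Zs.2 ⟨l, by omega, rfl⟩))
    · exact hkn
  -- sets of a bad level
  have hP : ∀ k ≤ m + 1, ∀ j < n, j ≤ l → ¬ fam m j k ⊆ W := by
    intro k hk j hjn hjl hsub
    by_cases hj : j = l
    · subst hj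
      rcases hl with ⟨_, hB⟩ | ⟨rfl, _⟩
      · have := one_le_pot (s := Finset.range (m + 2)) (f := fam m j) hd
          (i := k) (Finset.mem_range.2 (by omega)) hsub
        have h1 := hB.lt_one
        unfold PP at h1
        linarith
      · omega
    · have hg := (hG j (by omega)).not_edge hd
      unfold fam at hsub
      split_ifs at hsub
      · exact hg.2 (hsub (by simp))
      · exact hg.1 ⟨hsub (by simp), hsub (by simp)⟩
  cases he with
  | xx j hj =>
    have h1 := hZ j (Finset.subset_union_left.trans hW) hj.le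
    refine hP (m + 1) le_rfl j hj h1 ?_
    unfold fam
    rw [if_neg (by omega)]
    exact Finset.subset_union_right.trans hW
  | yt j k hj hk =>
    have h1 := hZ j (Finset.subset_union_left.trans hW) hj.le
    refine hP k (by omega) j hj h1 ?_
    unfold fam rung
    rw [if_pos (by omega), if_pos hk]
    exact Finset.subset_union_right.trans hW
  | ye j hj =>
    have h1 := hZ j (Finset.subset_union_left.trans hW) hj.le
    refine hP m (by omega) j hj h1 ?_
    unfold fam rung
    rw [if_pos le_rfl, if_neg (by omega), Finset.union_empty]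
    exact Finset.subset_union_right.trans hW
  | long j hj =>
    have h1 := hZ n (Finset.subset_union_left.trans hW) le_rfl
    exact ((hG j (by omega)).not_edge hd).2 (hW (by simp))
  | cl i j c hi hR =>
    have h1 := hZ n (Finset.subset_union_left.trans hW) le_rfl
    rcases hl with ⟨h2, _⟩ | ⟨_, hK⟩
    · omega
    rcases hK with hK | ⟨S, hS, hpot, hF⟩
    · exact (hK i hi).2.1 (hW (by simp))
    · by_cases hiS : i ∈ S
      · have := one_le_pot (s := S) (f := rung m Vx.h) hd hiS (by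
          intro v hv
          rw [mem_rung] at hv
          rcases hv with ⟨k, hk, rfl⟩ | ⟨_, rfl⟩
          · exact hW (by simp [hk])
          · exact hW (by simp))
        linarith
      · have hx : x j c ∈ W := hW (by simp)
        rcases hF i hi hiS c j hR with h' | h'
        · exact hd' _ hx h'
        · exact h'.ux.1 hx
  | ce =>
    have h1 := hZ n (Finset.subset_union_left.trans hW) le_rfl
    rcases hl with ⟨h2, _⟩ | ⟨_, hK⟩
    · omega
    rcases hK with hK | ⟨S, hS, hpot, hF⟩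
    · exact (hK 0 hm).1.1 (hW (by simp [hm]))
    · have := one_le_pot (s := S) (f := rung m Vx.h) hd hS (by
        intro v hv
        rw [mem_rung] at hv
        rcases hv with ⟨k, hk, rfl⟩ | ⟨hk, _⟩
        · exact hW (by simp [hk])
        · omega)
      linarith

/-! ### Preservation of the last part -/

/-- Moves which do not concern the last part. -/
theorem KInv.neutral (h : KInv m R W C) (hp : ∀ i, p ≠ g i ∧ p ≠ Vx.h i)
    (hq : ∀ i, q ≠ g i ∧ q ≠ Vx.h i) (hqW : q ∉ W)
    (hF : ∀ i < m, ∀ c j, R i (c, j) → Fals j c W C → Fals j c (insert q W) (insert p C)) :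
    KInv m R (insert q W) (insert p C) := by
  rcases h with h | ⟨S, hS, hpot, hS'⟩
  · left
    intro i hi
    exact ⟨(h i hi).1.other (fun e => (hp i).1 e.symm) (fun e => (hq i).1 e.symm),
      (h i hi).2.other (fun e => (hp i).2 e.symm) (fun e => (hq i).2 e.symm)⟩
  · right
    refine ⟨S, hS, ?_, fun i hi hiS c j hR => hF i hi c j hR (hS' i hi hiS c j hR)⟩
    rw [pot_resp_eq hqW]
    · exact hpot
    · intro k _ hk
      exfalso
      rw [mem_rung] at hk
      rcases hk with ⟨i, _, hi⟩ | ⟨_, hi⟩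
      · exact (hp i).1 hi
      · exact (hp k).2 hi
    · intro k _ hk
      exfalso
      rw [mem_rung] at hk
      rcases hk with ⟨i, _, hi⟩ | ⟨_, hi⟩
      · exact (hq i).1 hi
      · exact (hq k).2 hi

/-- The ladder of the last part in the beginning. -/
theorem LS_h (h : ∀ i < m, Unc W C (g i) ∧ Unc W C (Vx.h i)) : LS m Vx.h m W C :=
  ⟨le_rfl, h, fun h' => absurd h' (lt_irrefl _)⟩

/-- Client takes `g k` and Waiter gets `b k`. -/
theorem KInv.tie {k : ℕ} (hd : Disjoint W C) (h : KInv m R W C) (hk : k < m)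
    (hb : Unc W C (b k))
    (hF : ∀ i < m, ∀ c j, R i (c, j) → Fals j c W C →
      Fals j c (insert (b k) W) (insert (g k) C)) :
    KInv m R (insert (b k) W) (insert (g k) C) := by
  right
  rcases h with h | ⟨S, hS, hpot, hS'⟩
  · refine ⟨Finset.range (m + 1), by simp, ?_, ?_⟩
    · have hl := LS_h h
      have h1 := pot_resp_le (s := Finset.range (m + 1)) (f := rung m Vx.h) (C := C)
        (p := g k) (q := b k) hb.1
      have h2 := hl.lam_eq h_g hd
      have h3 := hl.dg_g h_g hd hk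
      have h4 : dg (Finset.range (m + 1)) (rung m Vx.h) W C (b k) = 0 := by
        refine hl.dg_other hb ?_
        rintro ⟨l, _, hl | hl⟩ <;> simp at hl
      have h5 : (0 : ℚ) < (1 / 2) ^ (k + 1) := by positivity
      unfold lam at h2
      linarith
    · intro i hi hiS
      exact absurd (Finset.mem_range.2 (by omega)) hiS
  · refine ⟨S, hS, ?_, fun i hi hiS c j hR => hF i hi c j hR (hS' i hi hiS c j hR)⟩
    have h1 := pot_resp_le (s := S) (f := rung m Vx.h) (C := C)
      (p := g k) (q := b k) hb.1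
    have h4 : dg S (rung m Vx.h) W C (b k) = 0 := by
      refine dg_eq_zero fun i _ hi => ?_
      rw [mem_rung] at hi
      rcases hi with ⟨l, _, hl⟩ | ⟨_, hl⟩ <;> simp at hl
    have h5 := dg_nonneg (s := S) (f := rung m Vx.h) (W := W) (C := C) (g k)
    linarith

/-- If all levels are decided then some clause is false. -/
theorem KInv.decided (hun : ∀ τ : ℕ → Bool, ∃ i < m, ∀ c j, R i (c, j) → τ j ≠ c)
    (hRn : ∀ i < m, ∀ c j, R i (c, j) → j < n)
    (hd : Disjoint W C) (hG : ∀ j < n, Good m j W C) (hF : ∀ j < n, ¬ Fresh m j W C)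
    (h : ∀ i < m, Unc W C (g i) ∧ Unc W C (Vx.h i)) :
    ∃ S : Finset ℕ, m ∈ S ∧ pot S (rung m Vx.h) W C < 1 ∧
      ∀ i < m, i ∉ S → ∀ c j, R i (c, j) → Fals j c W C := by
  classical
  have hdec : ∀ j < n, ∃ c, Fals j c W C := by
    intro j hj
    rcases hG j hj with h | ⟨c, h⟩ | h | h
    · exact absurd h (hF j hj)
    · exact ⟨c, Or.inr h⟩
    · obtain ⟨c, hc⟩ := h.cx
      exact ⟨c, Or.inl hc⟩
    · obtain ⟨c, hc⟩ := h.cx
      exact ⟨c, Or.inl hc⟩
  choose! σ hσ using hdec
  obtain ⟨i, hi, hcl⟩ := hun (fun j => !σ j)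
  refine ⟨(Finset.range (m + 1)).erase i, ?_, ?_, ?_⟩
  · rw [Finset.mem_erase]
    exact ⟨by omega, by simp⟩
  · have hl := LS_h h
    have h2 := hl.lam_eq h_g hd
    have h3 := hl.wt_lt h_g hi
    have h4 : pot (Finset.range (m + 1)) (rung m Vx.h) W C =
        pot ((Finset.range (m + 1)).erase i) (rung m Vx.h) W C + wt W C (rung m Vx.h i) := by
      unfold pot
      rw [Finset.sum_erase_add]
      simp
      omega
    have h5 : (0 : ℚ) < (1 / 2) ^ (i + 1) := by positivity
    unfold lam at h2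
    linarith
  · intro k hk hkS c j hR
    have hki : k = i := by
      by_contra hne
      exact hkS (Finset.mem_erase.2 ⟨hne, by simp; omega⟩)
    subst hki
    have h1 := hcl c j hR
    have h2 : c = σ j := by
      cases hc : c <;> cases hs : σ j <;> simp_all
    rw [h2]
    exact hσ j (hRn k hk c j hR)

/-- The last part, if the offered vertices do not concern the levels. -/
theorem KInv.step (hun : ∀ τ : ℕ → Bool, ∃ i < m, ∀ c j, R i (c, j) → τ j ≠ c)
    (hRn : ∀ i < m, ∀ c j, R i (c, j) → j < n)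
    (hd : Disjoint W C) (hp : Unc W C p) (hq : Unc W C q) (hpq : p ≠ q)
    (hG : ∀ j < n, Good m j W C) (hN : ∀ j < n, Neu m j W C p q) (h : KInv m R W C) :
    KInv m R (insert q W) (insert p C) ∨ KInv m R (insert p W) (insert q C) := by
  classical
  -- the second form
  have key : (∃ S : Finset ℕ, m ∈ S ∧ pot S (rung m Vx.h) W C < 1 ∧
      ∀ i < m, i ∉ S → ∀ c j, R i (c, j) → Fals j c W C) →
      KInv m R (insert q W) (insert p C) ∨ KInv m R (insert p W) (insert q C) := by
    rintro ⟨S, hS, hpot, hS'⟩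
    rcases pot_greedy (s := S) (f := rung m Vx.h) (C := C) hp.1 hq.1 with h' | h'
    · left; right
      exact ⟨S, hS, by linarith, fun i hi hiS c j hR =>
        (hN j (hRn i hi c j hR)).f1 c (hS' i hi hiS c j hR)⟩
    · right; right
      exact ⟨S, hS, by linarith, fun i hi hiS c j hR =>
        (hN j (hRn i hi c j hR)).f2 c (hS' i hi hiS c j hR)⟩
  rcases h with h | h
  swap
  · exact key h
  by_cases hF : ∃ j < n, Fresh m j W C
  swap
  · push Not at hF
    exact key (KInv.decided hun hRn hd hG hF h)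
  obtain ⟨j, hj, hF⟩ := hF
  obtain ⟨r, hr⟩ := hF.lad
  obtain ⟨a1, a2⟩ := (hN j hj).fr hF r hr
  have hrm : r = m := by
    by_contra hne
    have hlt : r < m := lt_of_le_of_ne hr.le hne
    exact (h r hlt).1.2 (hr.brk hlt).2
  subst hrm
  have g1 : ∀ i < r, p ≠ g i := fun i hi e => a1 ⟨i, hi, Or.inl e⟩
  have g2 : ∀ i < r, q ≠ g i := fun i hi e => a2 ⟨i, hi, Or.inl e⟩
  have hl := LS_h h
  -- Client takes the vertex `h i` with the smaller index
  have main : ∀ {p q : Vx}, Unc W C p → Unc W C q → p ≠ q → (∀ i < r, q ≠ g i) →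
      (∃ i < r, p = Vx.h i ∧ ∀ k < r, q = Vx.h k → i ≤ k) →
      KInv r R (insert q W) (insert p C) := by
    rintro p q hp hq hpq hqg ⟨i, hi, rfl, hik⟩
    right
    refine ⟨Finset.range (r + 1), by simp, ?_, fun i hi hiS =>
      absurd (Finset.mem_range.2 (by omega)) hiS⟩
    have h1 := pot_resp_le (s := Finset.range (r + 1)) (f := rung r Vx.h) (C := C)
      (p := Vx.h i) hq.1
    have h2 := hl.lam_eq h_g hd
    have h3 := hl.dg_c h_g h_inj hi
    have h4 : dg (Finset.range (r + 1)) (rung r Vx.h) W C q < (1 / 2) ^ (i + 1) := by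
      by_cases hA : LA Vx.h r q
      · obtain ⟨k, hk, rfl | rfl⟩ := hA
        · exact absurd rfl (hqg k hk)
        · rw [hl.dg_c h_g h_inj hk]
          have h5 := hik k hk rfl
          have h6 : i ≠ k := fun e => hpq (by rw [e])
          exact pow_lt_pow_right_of_lt_one₀ (by norm_num) (by norm_num) (by omega)
      · rw [hl.dg_other hq hA]
        positivity
    unfold lam at h2
    linarith
  by_cases hph : ∃ i < r, p = Vx.h i
  · obtain ⟨i, hi, rfl⟩ := hph
    by_cases hqh : ∃ k < r, q = Vx.h k ∧ k < i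
    · obtain ⟨k, hk, rfl, hki⟩ := hqh
      right
      refine main hq hp hpq.symm g1 ⟨k, hk, rfl, fun l _ e => ?_⟩
      rw [Vx.h.injEq] at e
      omega
    · left
      refine main hp hq hpq g2 ⟨i, hi, rfl, fun k hk e => ?_⟩
      by_contra hcon
      exact hqh ⟨k, hk, e, by omega⟩
  · by_cases hqh : ∃ i < r, q = Vx.h i
    · obtain ⟨i, hi, rfl⟩ := hqh
      right
      refine main hq hp hpq.symm g1 ⟨i, hi, rfl, fun k hk e => ?_⟩
      exact absurd ⟨k, hk, e⟩ hph
    · left; left
      intro i hi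
      exact ⟨(h i hi).1.other (fun e => g1 i hi e.symm) (fun e => g2 i hi e.symm),
        (h i hi).2.other (fun e => hph ⟨i, hi, e.symm⟩) (fun e => hqh ⟨i, hi, e.symm⟩)⟩

/-! ### Preservation of a bad level -/

theorem Bad.step {l : ℕ} (hp : Unc W C p) (hq : Unc W C q) (h : Bad m l W C) :
    Bad m l (insert q W) (insert p C) ∨ Bad m l (insert p W) (insert q C) := by
  rcases h with ⟨hz, hP⟩ | ⟨hz, hP⟩
  · by_cases hpz : p = z l
    · left; right
      refine ⟨hpz ▸ Finset.mem_insert_self _ _, ?_⟩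
      have := pot_le_two (s := Finset.range (m + 2)) (f := fam m l) (C := C) (p := p) hq.1
      unfold PP at hP ⊢
      linarith
    by_cases hqz : q = z l
    · right; right
      refine ⟨hqz ▸ Finset.mem_insert_self _ _, ?_⟩
      have := pot_le_two (s := Finset.range (m + 2)) (f := fam m l) (C := C) (p := q) hp.1
      unfold PP at hP ⊢
      linarith
    have g1 : z l ≠ p := fun e => hpz e.symm
    have g2 : z l ≠ q := fun e => hqz e.symm
    rcases pot_greedy (s := Finset.range (m + 2)) (f := fam m l) (C := C) hp.1 hq.1 with h | h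
    · left; left
      refine ⟨hz.other g1 g2, ?_⟩
      unfold PP at hP ⊢
      linarith
    · right; left
      refine ⟨hz.other g2 g1, ?_⟩
      unfold PP at hP ⊢
      linarith
  · rcases pot_greedy (s := Finset.range (m + 2)) (f := fam m l) (C := C) hp.1 hq.1 with h | h
    · left; right
      refine ⟨Finset.mem_insert_of_mem hz, ?_⟩
      unfold PP at hP ⊢
      linarith
    · right; right
      refine ⟨Finset.mem_insert_of_mem hz, ?_⟩
      unfold PP at hP ⊢
      linarith

/-- A change that affects neither the potential nor the state of `z l`. -/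
theorem Bad.same {l : ℕ} (h : Bad m l W C) (hp : p ≠ z l) (hq : q ≠ z l)
    (hP : PP m l (insert q W) (insert p C) = PP m l W C) :
    Bad m l (insert q W) (insert p C) := by
  rcases h with ⟨hz, h⟩ | ⟨hz, h⟩
  · exact Or.inl ⟨hz.other hp.symm hq.symm, by rw [hP]; exact h⟩
  · exact Or.inr ⟨Finset.mem_insert_of_mem hz, by rw [hP]; exact h⟩

theorem PP_priv {l j : ℕ} (hlj : l ≠ j) (hp : priv j p) (hq : priv j q) (hqW : q ∉ W) :
    PP m l (insert q W) (insert p C) = PP m l W C := by
  have hne : ∀ {v : Vx}, priv j v → ∀ k ∈ Finset.range (m + 2), v ∉ fam m l k := by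
    intro v hv k _ hk
    unfold fam at hk
    split_ifs at hk
    · rw [Finset.mem_union, mem_rung] at hk
      rcases hv with ⟨c, rfl⟩ | rfl | rfl | rfl <;> simp [Ne.symm hlj] at hk
    · rcases hv with ⟨c, rfl⟩ | rfl | rfl | rfl <;> simp [Ne.symm hlj] at hk
  exact pot_resp_eq hqW (fun k hk h => absurd h (hne hp k hk))
    (fun k hk h => absurd h (hne hq k hk))

theorem PP_tie {l r k : ℕ} (hd : Disjoint W C) (hr : LS m b r W C) (hk : k < r) :
    PP m l (insert (b k) W) (insert (g k) C) = PP m l W C := by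
  have hu := hr.unc k hk
  have h1 := hr.lam_eq b_g hd
  have h2 := (hr.cut b_g b_inj hk).lam_eq b_g (disj hd hu.1 hu.2 (by simp))
  rw [PP_eq, PP_eq, h1, h2, sw_else (by simp) (by simp), sw_else (by simp) (by simp),
    sw_else (by simp) (by simp), sw_else (by simp) (by simp)]

/-- Client can keep up the invariant. -/
theorem Inv.step (hun : ∀ τ : ℕ → Bool, ∃ i < m, ∀ c j, R i (c, j) → τ j ≠ c)
    (hRn : ∀ i < m, ∀ c j, R i (c, j) → j < n) (h : Inv n m R W C)
    (hp : Unc W C p) (hq : Unc W C q) (hpq : p ≠ q) :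
    Inv n m R (insert q W) (insert p C) ∨ Inv n m R (insert p W) (insert q C) := by
  classical
  obtain ⟨hd, h⟩ := h
  have d1 := disj hd hp hq hpq
  have d2 := disj hd hq hp hpq.symm
  obtain ⟨l, hln, hG, hl⟩ : ∃ l ≤ n, (∀ j < l, Good m j W C) ∧
      ((l < n ∧ Bad m l W C) ∨ (l = n ∧ KInv m R W C)) := by
    rcases h with ⟨l, hl, h1, h2⟩ | ⟨h1, h2⟩
    · exact ⟨l, hl.le, h1, Or.inl ⟨hl, h2⟩⟩
    · exact ⟨n, le_rfl, h1, Or.inr ⟨rfl, h2⟩⟩
  have hout : ∀ j < l, Out m j W C p q := fun j hj => (hG j hj).out hd hp hq hpq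
  -- assembling
  have mk : ∀ {W' C' : Finset Vx}, Disjoint W' C' → (∀ j < l, Good m j W' C') →
      ((l < n ∧ Bad m l W' C') ∨ (l = n ∧ KInv m R W' C')) → Inv n m R W' C' := by
    intro W' C' h1 h2 h3
    refine ⟨h1, ?_⟩
    rcases h3 with ⟨h3, h4⟩ | ⟨h3, h4⟩
    · exact Or.inl ⟨l, h3, h2, h4⟩
    · exact Or.inr ⟨h3 ▸ h2, h4⟩
  -- a transition inside a level
  by_cases hT : ∃ j < l, priv j p ∧ priv j q ∧
      ((Good m j (insert q W) (insert p C) ∧ FP j W C (insert q W) (insert p C)) ∨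
       (Good m j (insert p W) (insert q C) ∧ FP j W C (insert p W) (insert q C)))
  · obtain ⟨j, hj, pp, pq, hT⟩ := hT
    have gen : ∀ {p q : Vx}, Unc W C p → Unc W C q → p ≠ q → priv j p → priv j q →
        Good m j (insert q W) (insert p C) → FP j W C (insert q W) (insert p C) →
        Inv n m R (insert q W) (insert p C) := by
      intro p q hp hq hpq pp pq hg hf
      have hall : ∀ i < l, Good m i (insert q W) (insert p C) ∧
          FP i W C (insert q W) (insert p C) := by
        intro i hi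
        by_cases hij : i = j
        · subst hij
          exact ⟨hg, hf⟩
        · exact (hG i hi).other hij pp pq
      have npg : ∀ {v : Vx}, priv j v → ∀ i, v ≠ g i ∧ v ≠ Vx.h i := by
        rintro v (⟨c, rfl⟩ | rfl | rfl | rfl) i <;> simp
      refine mk (disj hd hp hq hpq) (fun i hi => (hall i hi).1) ?_
      rcases hl with ⟨h1, h2⟩ | ⟨h1, h2⟩
      · have hlj : l ≠ j := by omega
        have nz : ∀ {v : Vx}, priv j v → v ≠ z l := by
          rintro v (⟨c, rfl⟩ | rfl | rfl | rfl) <;> simp [Ne.symm hlj]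
        exact Or.inl ⟨h1, h2.same (nz pp) (nz pq) (PP_priv hlj pp pq hq.1)⟩
      · refine Or.inr ⟨h1, h2.neutral (npg pp) (npg pq) hq.1 ?_⟩
        intro i hi c k hR hF
        have hkn := hRn i hi c k hR
        exact (hall k (by omega)).2 c hF
    rcases hT with ⟨h1, h2⟩ | ⟨h1, h2⟩
    · exact Or.inl (gen hp hq hpq pp pq h1 h2)
    · exact Or.inr (gen hq hp hpq.symm pq pp h1 h2)
  -- a tie in the ladder
  by_cases hL : ∃ r k, LS m b r W C ∧ k < r ∧ ((p = g k ∧ q = b k) ∨ (p = b k ∧ q = g k))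
  · obtain ⟨r, k, hr, hk, hpq'⟩ := hL
    have hu := hr.unc k hk
    have gen : Inv n m R (insert (b k) W) (insert (g k) C) := by
      have hall : ∀ i < l, Good m i (insert (b k) W) (insert (g k) C) ∧
          FP i W C (insert (b k) W) (insert (g k) C) := fun i hi => (hG i hi).tie hr hk
      refine mk (disj hd hu.1 hu.2 (by simp)) (fun i hi => (hall i hi).1) ?_
      rcases hl with ⟨h1, h2⟩ | ⟨h1, h2⟩
      · exact Or.inl ⟨h1, h2.same (by simp) (by simp) (PP_tie hd hr hk)⟩
      · refine Or.inr ⟨h1, h2.tie hd (lt_of_lt_of_le hk hr.le) hu.2 ?_⟩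
        intro i hi c j hR hF
        have hkn := hRn i hi c j hR
        exact (hall j (by omega)).2 c hF
    rcases hpq' with ⟨rfl, rfl⟩ | ⟨rfl, rfl⟩
    · exact Or.inl gen
    · exact Or.inr gen
  -- a level becomes bad
  by_cases hB : ∃ j, j < l ∧ (Bad m j (insert q W) (insert p C) ∨
      Bad m j (insert p W) (insert q C))
  · obtain ⟨hj1, hj2⟩ := Nat.find_spec hB
    set j := Nat.find hB with hjdef
    have hmin : ∀ i < j, Neu m i W C p q := by
      intro i hi
      have hil : i < l := by omega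
      have hnb := Nat.find_min hB hi
      rcases hout i hil with h | h | h | h | h
      · exact h
      · exact absurd ⟨hil, Or.inl h⟩ hnb
      · exact absurd ⟨hil, Or.inr h⟩ hnb
      · exact absurd ⟨i, hil, h⟩ hT
      · exact absurd h hL
    rcases hj2 with h | h
    · left
      exact ⟨d1, Or.inl ⟨j, by omega, fun i hi => (hmin i hi).g1, h⟩⟩
    · right
      exact ⟨d2, Or.inl ⟨j, by omega, fun i hi => (hmin i hi).g2, h⟩⟩
  -- all levels are neutral
  have hN : ∀ j < l, Neu m j W C p q := by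
    intro i hil
    rcases hout i hil with h | h | h | h | h
    · exact h
    · exact absurd ⟨i, hil, Or.inl h⟩ hB
    · exact absurd ⟨i, hil, Or.inr h⟩ hB
    · exact absurd ⟨i, hil, h⟩ hT
    · exact absurd h hL
  rcases hl with ⟨h1, h2⟩ | ⟨h1, h2⟩
  · rcases h2.step hp hq with h3 | h3
    · exact Or.inl (mk d1 (fun i hi => (hN i hi).g1) (Or.inl ⟨h1, h3⟩))
    · exact Or.inr (mk d2 (fun i hi => (hN i hi).g2) (Or.inl ⟨h1, h3⟩))
  · subst h1
    rcases KInv.step hun hRn hd hp hq hpq hG hN h2 with h3 | h3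
    · exact Or.inl (mk d1 (fun i hi => (hN i hi).g1) (Or.inr ⟨rfl, h3⟩))
    · exact Or.inr (mk d2 (fun i hi => (hN i hi).g2) (Or.inr ⟨rfl, h3⟩))

/-- If the formula is unsatisfiable then Waiter does not win. -/
theorem not_waiter_wins {V : Finset Vx}
    (hun : ∀ τ : ℕ → Bool, ∃ i < m, ∀ c j, R i (c, j) → τ j ≠ c)
    (hRn : ∀ i < m, ∀ c j, R i (c, j) → j < n) : ¬ WaiterWins V (edges n m R) := by
  have hm : 0 < m := by
    obtain ⟨i, hi, _⟩ := hun (fun _ => true)
    omega
  refine not_winsFrom (Inv n m R) (fun W C h e he => h.not_edge hm he)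
    (fun W C h x y h1 h2 h3 h4 h5 => h.step hun hRn ⟨h1, h2⟩ ⟨h3, h4⟩ h5) ∅ ∅ ?_
  have hU : ∀ v, Unc (∅ : Finset Vx) ∅ v := fun v => ⟨by simp, by simp⟩
  refine ⟨by simp, Or.inr ⟨fun j _ => Or.inl ?_, Or.inl fun i _ => ⟨hU _, hU _⟩⟩⟩
  exact ⟨fun c => hU _, hU _, hU _, hU _, ⟨m, le_rfl, fun k _ => ⟨hU _, hU _⟩,
    fun h => absurd h (lt_irrefl _)⟩⟩

end Pool.Agent.H235R3.WC
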