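import Mathlib

/-!
# The Waiter-Client game

The board `V` is a finite set and `E` is the family of winning sets. A position is the pair
`(W, C)` of the sets of the vertices claimed by Waiter and by Client.
-/

namespace Pool.Agent.H235R3.WC

variable {α β : Type*} [DecidableEq α] [DecidableEq β]

/-- `WinsFrom V E W C`: Waiter, who owns the vertices in `W`, wins the game on the board `V` with
the edges in `E` from the position in which Client owns the vertices in `C`.

If at most one vertex is unclaimed then the game is over (the last vertex, if there is one, goes to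
Client), and Waiter has won iff she owns every vertex of some edge. Otherwise Waiter has to offer
two unclaimed vertices `x ≠ y`; Client claims one of them and Waiter gets the other one. -/
inductive WinsFrom (V : Finset α) (E : Set (Finset α)) : Finset α → Finset α → Prop
  | gameOver (W C : Finset α) : (V \ (W ∪ C)).card ≤ 1 → (∃ e ∈ E, e ⊆ W) → WinsFrom V E W C
  | offer (W C : Finset α) (x y : α) : x ∈ V \ (W ∪ C) → y ∈ V \ (W ∪ C) → x ≠ y →
      WinsFrom V E (insert y W) (insert x C) → WinsFrom V E (insert x W) (insert y C) →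
      WinsFrom V E W C

/-- Waiter has a winning strategy in the Waiter-Client game on the hypergraph `(V, E)`. -/
def WaiterWins (V : Finset α) (E : Set (Finset α)) : Prop := WinsFrom V E ∅ ∅

theorem card_insert_lt {V W C : Finset α} {x y : α} (hx : x ∈ V \ (W ∪ C)) :
    (V \ (insert y W ∪ insert x C)).card < (V \ (W ∪ C)).card := by
  apply Finset.card_lt_card
  refine ⟨fun a ha => ?_, fun h => ?_⟩
  · simp only [Finset.mem_sdiff, Finset.mem_union, Finset.mem_insert, not_or] at ha ⊢
    exact ⟨ha.1, ha.2.1.2, ha.2.2.2⟩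
  · have := h hx
    simp at this

/-- Waiter may complete an edge and then play arbitrarily. -/
theorem WinsFrom.finish {V : Finset α} {E : Set (Finset α)} {e : Finset α} (he : e ∈ E) :
    ∀ (N : ℕ) (W C : Finset α), (V \ (W ∪ C)).card = N → e ⊆ W → WinsFrom V E W C := by
  intro N
  induction N using Nat.strong_induction_on with
  | _ N ih =>
    intro W C hN heW
    by_cases h : (V \ (W ∪ C)).card ≤ 1
    · exact WinsFrom.gameOver W C h ⟨e, he, heW⟩
    · obtain ⟨x, hx, y, hy, hxy⟩ := Finset.one_lt_card.1 (not_le.1 h)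
      refine WinsFrom.offer W C x y hx hy hxy ?_ ?_
      · exact ih _ (hN ▸ card_insert_lt hx) _ _ rfl (heW.trans (Finset.subset_insert _ _))
      · exact ih _ (hN ▸ card_insert_lt hy) _ _ rfl (heW.trans (Finset.subset_insert _ _))

theorem WinsFrom.done {V W C : Finset α} {E : Set (Finset α)} {e : Finset α} (he : e ∈ E)
    (h : e ⊆ W) : WinsFrom V E W C := WinsFrom.finish he _ W C rfl h

/-- An invariant which Client can keep up, and which excludes that Waiter owns an edge. -/
theorem not_winsFrom {V : Finset α} {E : Set (Finset α)} (I : Finset α → Finset α → Prop)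
    (hE : ∀ W C, I W C → ∀ e ∈ E, ¬ e ⊆ W)
    (hI : ∀ W C, I W C → ∀ x y, x ∉ W → x ∉ C → y ∉ W → y ∉ C → x ≠ y →
      I (insert y W) (insert x C) ∨ I (insert x W) (insert y C)) :
    ∀ W C, I W C → ¬ WinsFrom V E W C := by
  intro W C hI0 hW
  induction hW with
  | gameOver W C _ h =>
    obtain ⟨e, he, heW⟩ := h
    exact hE W C hI0 e he heW
  | offer W C x y hx hy hxy _ _ ih1 ih2 =>
    simp only [Finset.mem_sdiff, Finset.mem_union, not_or] at hx hy
    rcases hI W C hI0 x y hx.2.1 hx.2.2 hy.2.1 hy.2.2 hxy with h | h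
    · exact ih1 h
    · exact ih2 h

/-! ### Renaming the vertices -/

theorem WinsFrom.map (f : α ↪ β) {V : Finset α} {E : Set (Finset α)} {W C : Finset α}
    (h : WinsFrom V E W C) :
    WinsFrom (V.map f) ((fun e => e.map f) '' E) (W.map f) (C.map f) := by
  have key : ∀ W C : Finset α, V.map f \ (W.map f ∪ C.map f) = (V \ (W ∪ C)).map f := by
    intro W C
    ext b
    simp only [Finset.mem_sdiff, Finset.mem_map, Finset.mem_union, not_or]
    constructor
    · rintro ⟨⟨a, ha, rfl⟩, h1, h2⟩
      exact ⟨a, ⟨ha, fun h => h1 ⟨a, h, rfl⟩, fun h => h2 ⟨a, h, rfl⟩⟩, rfl⟩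
    · rintro ⟨a, ⟨ha, h1, h2⟩, rfl⟩
      refine ⟨⟨a, ha, rfl⟩, ?_, ?_⟩
      · rintro ⟨c, hc, hca⟩
        exact h1 (f.injective hca ▸ hc)
      · rintro ⟨c, hc, hca⟩
        exact h2 (f.injective hca ▸ hc)
  induction h with
  | gameOver W C h1 h2 =>
    refine WinsFrom.gameOver _ _ (by rw [key, Finset.card_map]; exact h1) ?_
    obtain ⟨e, he, heW⟩ := h2
    exact ⟨e.map f, ⟨e, he, rfl⟩, Finset.map_subset_map.2 heW⟩
  | offer W C x y hx hy hxy _ _ ih1 ih2 =>
    refine WinsFrom.offer _ _ (f x) (f y) (by rw [key]; exact Finset.mem_map_of_mem f hx)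
      (by rw [key]; exact Finset.mem_map_of_mem f hy) (fun h => hxy (f.injective h)) ?_ ?_
    · rw [Finset.map_insert, Finset.map_insert] at ih1
      exact ih1
    · rw [Finset.map_insert, Finset.map_insert] at ih2
      exact ih2

theorem WinsFrom.of_map (f : α ↪ β) {V : Finset α} {E : Set (Finset α)} :
    ∀ {W' C' : Finset β}, WinsFrom (V.map f) ((fun e => e.map f) '' E) W' C' →
      ∀ {W C : Finset α}, W' = W.map f → C' = C.map f → WinsFrom V E W C := by
  have key : ∀ W C : Finset α, V.map f \ (W.map f ∪ C.map f) = (V \ (W ∪ C)).map f := by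
    intro W C
    ext b
    simp only [Finset.mem_sdiff, Finset.mem_map, Finset.mem_union, not_or]
    constructor
    · rintro ⟨⟨a, ha, rfl⟩, h1, h2⟩
      exact ⟨a, ⟨ha, fun h => h1 ⟨a, h, rfl⟩, fun h => h2 ⟨a, h, rfl⟩⟩, rfl⟩
    · rintro ⟨a, ⟨ha, h1, h2⟩, rfl⟩
      refine ⟨⟨a, ha, rfl⟩, ?_, ?_⟩
      · rintro ⟨c, hc, hca⟩
        exact h1 (f.injective hca ▸ hc)
      · rintro ⟨c, hc, hca⟩
        exact h2 (f.injective hca ▸ hc)
  intro W' C' h
  induction h with
  | gameOver W' C' h1 h2 =>
    rintro W C rfl rfl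
    refine WinsFrom.gameOver _ _ (by rw [key, Finset.card_map] at h1; exact h1) ?_
    obtain ⟨_, ⟨e, he, rfl⟩, heW⟩ := h2
    exact ⟨e, he, Finset.map_subset_map.1 heW⟩
  | offer W' C' x' y' hx hy hxy _ _ ih1 ih2 =>
    rintro W C rfl rfl
    rw [key, Finset.mem_map] at hx hy
    obtain ⟨x, hx, rfl⟩ := hx
    obtain ⟨y, hy, rfl⟩ := hy
    refine WinsFrom.offer _ _ x y hx hy (fun h => hxy (by rw [h])) ?_ ?_
    · exact ih1 (Finset.map_insert _ _ _).symm (Finset.map_insert _ _ _).symm
    · exact ih2 (Finset.map_insert _ _ _).symm (Finset.map_insert _ _ _).symm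

theorem waiterWins_map (f : α ↪ β) (V : Finset α) (E : Set (Finset α)) :
    WaiterWins (V.map f) ((fun e => e.map f) '' E) ↔ WaiterWins V E := by
  constructor
  · intro h
    exact WinsFrom.of_map f h rfl rfl
  · intro h
    have := WinsFrom.map f h
    simpa [WaiterWins] using this

end Pool.Agent.H235R3.WC
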