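import Pool.Agent.H235R3.WC.Game

/-!
# The hypergraph of a formula, and Waiter's strategy

The formula has `n` variables and `m` clauses; `R i (b, j)` says that the literal `x_j = b` occurs
in the clause `i`.
-/

namespace Pool.Agent.H235R3.WC

/-- The vertices. -/
inductive Vx : Type
  | x (j : ℕ) (b : Bool)
  | y (j : ℕ)
  | t (j : ℕ)
  | z (j : ℕ)
  | g (i : ℕ)
  | h (i : ℕ)
  | b (i : ℕ)
  deriving DecidableEq

namespace Vx

/-- The vertices `z_0, ..., z_{j-1}`. -/
def Zs (j : ℕ) : Finset Vx := (Finset.range j).image z

/-- The vertices `g_0, ..., g_{i-1}`. -/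
def Gs (i : ℕ) : Finset Vx := (Finset.range i).image g

@[simp] theorem mem_Zs {j : ℕ} {v : Vx} : v ∈ Zs j ↔ ∃ k, k < j ∧ z k = v := by
  simp [Zs]

@[simp] theorem mem_Gs {i : ℕ} {v : Vx} : v ∈ Gs i ↔ ∃ k, k < i ∧ g k = v := by
  simp [Gs]

end Vx

open Vx

/-- The edges of the hypergraph. -/
inductive Edge (n m : ℕ) (R : ℕ → Bool × ℕ → Prop) : Finset Vx → Prop
  /-- `x_j` and its negation -/
  | xx (j : ℕ) : j < n → Edge n m R (Zs j ∪ {x j true, x j false})
  | yt (j k : ℕ) : j < n → k < m → Edge n m R (Zs j ∪ ({y j, t j} ∪ (Gs k ∪ {b k})))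
  | ye (j : ℕ) : j < n → Edge n m R (Zs j ∪ ({y j, t j} ∪ Gs m))
  | long (j : ℕ) : j < n → Edge n m R (Zs n ∪ {y j})
  | cl (i j : ℕ) (c : Bool) : i < m → R i (c, j) → Edge n m R (Zs n ∪ (Gs i ∪ {h i, x j c}))
  | ce : Edge n m R (Zs n ∪ Gs m)

/-- The set of the edges. -/
def edges (n m : ℕ) (R : ℕ → Bool × ℕ → Prop) : Set (Finset Vx) := {e | Edge n m R e}

/-- The board. -/
def board (n m : ℕ) : Finset Vx :=
  (Finset.range n).biUnion (fun j => {x j true, x j false, y j, t j, z j}) ∪
    (Finset.range m).biUnion (fun i => {g i, h i, b i})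

theorem mem_board {n m : ℕ} {v : Vx} : v ∈ board n m ↔
    (∃ j < n, v = x j true ∨ v = x j false ∨ v = y j ∨ v = t j ∨ v = z j) ∨
      (∃ i < m, v = g i ∨ v = h i ∨ v = b i) := by
  simp [board]

section Waiter

variable {n m : ℕ} {R : ℕ → Bool × ℕ → Prop}

/-- Offering two vertices. -/
theorem play {V W C : Finset Vx} {E : Set (Finset Vx)} (p q : Vx) (hp : p ∈ V) (hq : q ∈ V)
    (hpq : p ≠ q) (h1 : p ∉ W) (h2 : p ∉ C) (h3 : q ∉ W) (h4 : q ∉ C)
    (H1 : WinsFrom V E (insert q W) (insert p C)) (H2 : WinsFrom V E (insert p W) (insert q C)) :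
    WinsFrom V E W C :=
  WinsFrom.offer W C p q (by simp [hp, h1, h2]) (by simp [hq, h3, h4]) hpq H1 H2

/-- Waiter wins on a ladder. -/
theorem ladder_win (c : ℕ → Vx) (hcb : ∀ k < m, c k ∈ board n m) (hcg : ∀ k l, c k ≠ g l)
    (hci : ∀ k l, c k = c l → k = l) (B : Finset Vx)
    (H1 : ∀ k < m, ∃ e, Edge n m R e ∧ e ⊆ B ∪ (Gs k ∪ {c k}))
    (H2 : ∃ e, Edge n m R e ∧ e ⊆ B ∪ Gs m) :
    ∀ (d k : ℕ), k + d = m → ∀ W C : Finset Vx, B ⊆ W → Gs k ⊆ W →
      (∀ l, k ≤ l → l < m → g l ∉ W ∧ g l ∉ C ∧ c l ∉ W ∧ c l ∉ C) → WinsFrom (board n m) (edges n m R) W C := by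
  intro d
  induction d with
  | zero =>
    intro k hk W C hB hG _
    obtain ⟨e, he, hsub⟩ := H2
    refine WinsFrom.done (e := e) he (hsub.trans (Finset.union_subset hB ?_))
    have : k = m := by omega
    exact this ▸ hG
  | succ d ih =>
    intro k hk W C hB hG hU
    have hkm : k < m := by omega
    obtain ⟨u1, u2, u3, u4⟩ := hU k le_rfl hkm
    refine play (g k) (c k) ?_ (hcb k hkm) (hcg k k).symm u1 u2 u3 u4 ?_ ?_
    · rw [mem_board]
      exact Or.inr ⟨k, hkm, Or.inl rfl⟩
    · obtain ⟨e, he, hsub⟩ := H1 k hkm
      refine WinsFrom.done (e := e) he (hsub.trans ?_)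
      refine Finset.union_subset (hB.trans (Finset.subset_insert _ _)) ?_
      refine Finset.union_subset (hG.trans (Finset.subset_insert _ _)) ?_
      simp
    · refine ih (k + 1) (by omega) _ _ (hB.trans (Finset.subset_insert _ _)) ?_ ?_
      · intro v hv
        rw [mem_Gs] at hv
        obtain ⟨l, hl, rfl⟩ := hv
        rw [Finset.mem_insert]
        by_cases h : l = k
        · left; rw [h]
        · right
          exact hG (mem_Gs.2 ⟨l, by omega, rfl⟩)
      · intro l hl hlm
        obtain ⟨v1, v2, v3, v4⟩ := hU l (by omega) hlm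
        have hlk : l ≠ k := by omega
        refine ⟨?_, ?_, ?_, ?_⟩
        · rw [Finset.mem_insert, not_or]
          exact ⟨by simpa using hlk, v1⟩
        · rw [Finset.mem_insert, not_or]
          exact ⟨(hcg k l).symm, v2⟩
        · rw [Finset.mem_insert, not_or]
          exact ⟨hcg l k, v3⟩
        · rw [Finset.mem_insert, not_or]
          exact ⟨fun h => hlk (hci _ _ h), v4⟩

/-- Waiter wins if the formula is satisfiable. -/
theorem waiter_wins (τ : ℕ → Bool)
    (hτ : ∀ i < m, ∃ j < n, R i (τ j, j)) : WaiterWins (board n m) (edges n m R) := by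
  have main : ∀ (d j : ℕ), j + d = n → ∀ W C : Finset Vx, Zs j ⊆ W →
      ((∀ i < j, x i (τ i) ∈ W) ∨ (∃ i < j, y i ∈ W)) →
      (∀ k, j ≤ k → ∀ v, (v = x k true ∨ v = x k false ∨ v = y k ∨ v = t k ∨ v = z k) →
        v ∉ W ∧ v ∉ C) →
      (∀ k, (g k ∉ W ∧ g k ∉ C) ∧ (h k ∉ W ∧ h k ∉ C) ∧ (b k ∉ W ∧ b k ∉ C)) → WinsFrom (board n m) (edges n m R) W C := by
    intro d
    induction d with
    | zero =>
      intro j hj W C hZ hA _ hL
      have hjn : j = n := by omega
      subst hjn
      rcases hA with hA | ⟨i, hi, hy⟩
      · refine ladder_win (n := j) h ?_ (by simp) (by simp) W ?_ ?_ m 0 (by omega) W C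
          (Finset.Subset.refl _) ?_ ?_
        · intro k hk
          rw [mem_board]
          exact Or.inr ⟨k, hk, Or.inr (Or.inl rfl)⟩
        · intro k hk
          obtain ⟨l, hl, hR⟩ := hτ k hk
          refine ⟨_, Edge.cl k l (τ l) hk hR, ?_⟩
          refine Finset.union_subset (hZ.trans Finset.subset_union_left) ?_
          refine Finset.union_subset
            (Finset.subset_union_left.trans Finset.subset_union_right) ?_
          intro v hv
          rw [Finset.mem_insert, Finset.mem_singleton] at hv
          rcases hv with rfl | rfl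
          · simp
          · exact Finset.mem_union_left _ (hA l hl)
        · exact ⟨_, Edge.ce, Finset.union_subset (hZ.trans Finset.subset_union_left)
            Finset.subset_union_right⟩
        · intro v hv
          simp at hv
        · intro l _ _
          exact ⟨(hL l).1.1, (hL l).1.2, (hL l).2.1.1, (hL l).2.1.2⟩
      · refine WinsFrom.done (e := Zs j ∪ {y i}) (Edge.long i hi) ?_
        exact Finset.union_subset hZ (by simpa using hy)
    | succ d ih =>
      intro j hj W C hZ hA hU hL
      have hjn : j < n := by omega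
      have hbd : ∀ v, (v = x j true ∨ v = x j false ∨ v = y j ∨ v = t j ∨ v = z j) →
          v ∈ board n m := fun v hv => mem_board.2 (Or.inl ⟨j, hjn, hv⟩)
      have hx : ∀ c, x j c ∈ board n m ∧ x j c ∉ W ∧ x j c ∉ C := by
        intro c
        have : (x j c = x j true ∨ x j c = x j false ∨ x j c = y j ∨ x j c = t j ∨
          x j c = z j) := by cases c <;> simp
        exact ⟨hbd _ this, hU j le_rfl _ this⟩
      have hy : y j ∈ board n m ∧ y j ∉ W ∧ y j ∉ C :=
        ⟨hbd _ (by simp), hU j le_rfl _ (by simp)⟩
      have ht : t j ∈ board n m ∧ t j ∉ W ∧ t j ∉ C :=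
        ⟨hbd _ (by simp), hU j le_rfl _ (by simp)⟩
      have hz : z j ∈ board n m ∧ z j ∉ W ∧ z j ∉ C :=
        ⟨hbd _ (by simp), hU j le_rfl _ (by simp)⟩
      -- the next level
      have next : ∀ W' C' : Finset Vx, (∀ v ∈ W', v ∈ W ∨ v = x j (τ j) ∨ v = y j ∨ v = z j) →
          (∀ v ∈ C', v ∈ C ∨ v = x j (τ j) ∨ v = y j ∨ v = x j (!τ j) ∨ v = t j) →
          W ⊆ W' → z j ∈ W' → (x j (τ j) ∈ W' ∨ y j ∈ W') → WinsFrom (board n m) (edges n m R) W' C' := by
        intro W' C' h1 h2 h3 h4 h5
        refine ih (j + 1) (by omega) W' C' ?_ ?_ ?_ ?_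
        · intro v hv
          rw [mem_Zs] at hv
          obtain ⟨l, hl, rfl⟩ := hv
          by_cases h : l = j
          · rw [h]; exact h4
          · exact h3 (hZ (mem_Zs.2 ⟨l, by omega, rfl⟩))
        · rcases hA with hA | ⟨i, hi, hy'⟩
          · rcases h5 with h5 | h5
            · left
              intro i hi
              by_cases h : i = j
              · rw [h]; exact h5
              · exact h3 (hA i (by omega))
            · exact Or.inr ⟨j, by omega, h5⟩
          · exact Or.inr ⟨i, by omega, h3 hy'⟩
        · intro k hk v hv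
          obtain ⟨u1, u2⟩ := hU k (by omega) v hv
          constructor
          · intro h
            rcases h1 v h with h | h | h | h
            · exact u1 h
            all_goals
              subst h
              simp at hv
              omega
          · intro h
            rcases h2 v h with h | h | h | h | h
            · exact u2 h
            all_goals
              subst h
              simp at hv
              omega
        · intro k
          obtain ⟨⟨u1, u2⟩, ⟨u3, u4⟩, ⟨u5, u6⟩⟩ := hL k
          refine ⟨⟨?_, ?_⟩, ⟨?_, ?_⟩, ⟨?_, ?_⟩⟩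
          · intro h; rcases h1 _ h with h | h | h | h <;> first | exact u1 h | simp at h
          · intro h; rcases h2 _ h with h | h | h | h | h <;> first | exact u2 h | simp at h
          · intro h; rcases h1 _ h with h | h | h | h <;> first | exact u3 h | simp at h
          · intro h; rcases h2 _ h with h | h | h | h | h <;> first | exact u4 h | simp at h
          · intro h; rcases h1 _ h with h | h | h | h <;> first | exact u5 h | simp at h
          · intro h; rcases h2 _ h with h | h | h | h | h <;> first | exact u6 h | simp at h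
      refine play (x j (τ j)) (y j) (hx _).1 hy.1 (by simp) (hx _).2.1 (hx _).2.2 hy.2.1
        hy.2.2 ?_ ?_
      · -- Client takes `x j (τ j)`
        refine play (t j) (z j) ht.1 hz.1 (by simp) (by simp [ht.2.1]) (by simp [ht.2.2])
          (by simp [hz.2.1]) (by simp [hz.2.2]) ?_ ?_
        · -- Client takes `t j`
          refine next _ _ ?_ ?_ ?_ (by simp) (by simp)
          · intro v hv
            simp only [Finset.mem_insert] at hv
            tauto
          · intro v hv
            simp only [Finset.mem_insert] at hv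
            tauto
          · exact (Finset.subset_insert _ _).trans (Finset.subset_insert _ _)
        · -- Client takes `z j`
          refine ladder_win (n := n) b ?_ (by simp) (by simp)
            (insert (t j) (insert (y j) W)) ?_ ?_ m 0 (by omega) _ _
            (Finset.Subset.refl _) ?_ ?_
          · intro k hk
            rw [mem_board]
            exact Or.inr ⟨k, hk, Or.inr (Or.inr rfl)⟩
          · intro k hk
            refine ⟨_, Edge.yt j k hjn hk, ?_⟩
            refine Finset.union_subset ?_ (Finset.union_subset ?_ Finset.subset_union_right)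
            · intro v hv
              have := hZ hv
              simp [this]
            · intro v hv
              simp only [Finset.mem_insert, Finset.mem_singleton] at hv
              rcases hv with rfl | rfl <;> simp
          · refine ⟨_, Edge.ye j hjn, ?_⟩
            refine Finset.union_subset ?_ (Finset.union_subset ?_ Finset.subset_union_right)
            · intro v hv
              have := hZ hv
              simp [this]
            · intro v hv
              simp only [Finset.mem_insert, Finset.mem_singleton] at hv
              rcases hv with rfl | rfl <;> simp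
          · intro v hv
            simp at hv
          · intro l _ _
            obtain ⟨⟨u1, u2⟩, ⟨u3, u4⟩, ⟨u5, u6⟩⟩ := hL l
            simp [u1, u2, u5, u6]
      · -- Client takes `y j`
        refine play (x j (!τ j)) (z j) (hx _).1 hz.1 (by simp) (by simp [(hx (!τ j)).2.1])
          (by simp [(hx (!τ j)).2.2]) (by simp [hz.2.1]) (by simp [hz.2.2]) ?_ ?_
        · -- Client takes `x j (!τ j)`
          refine next _ _ ?_ ?_ ?_ (by simp) (by simp)
          · intro v hv
            simp only [Finset.mem_insert] at hv
            tauto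
          · intro v hv
            simp only [Finset.mem_insert] at hv
            tauto
          · exact (Finset.subset_insert _ _).trans (Finset.subset_insert _ _)
        · -- Client takes `z j`
          refine WinsFrom.done (e := Zs j ∪ {x j true, x j false}) (Edge.xx j hjn) ?_
          refine Finset.union_subset ?_ ?_
          · intro v hv
            have := hZ hv
            simp [this]
          · intro v hv
            simp only [Finset.mem_insert, Finset.mem_singleton] at hv
            cases hb : τ j <;> rcases hv with rfl | rfl <;> simp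
  refine main n 0 (by omega) ∅ ∅ ?_ (Or.inl ?_) ?_ ?_
  · intro v hv
    simp at hv
  · intro i hi
    omega
  · intro k _ v _
    simp
  · intro k
    simp

end Waiter

end Pool.Agent.H235R3.WC
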