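import Pool.Agent.H235R3.WC.Inst

/-!
# The Waiter-Client game is NP-hard
-/

namespace Pool.Agent.NPC.H235WC

open Pool.Agent.H235R3.WC Vx

/-- All variables of the formula are small. -/
def Small3 (ψ : List Cl3) : Prop :=
  ∀ c ∈ ψ, c.1.2 < 3 * ψ.length ∧ c.2.1.2 < 3 * ψ.length ∧ c.2.2.2 < 3 * ψ.length

theorem mem_verts {H : List (List ℕ)} {v : ℕ} : v ∈ verts H ↔ ∃ e ∈ edgeSet H, v ∈ e := by
  simp only [verts, List.mem_toFinset, List.mem_flatten, edgeSet, Set.mem_ofPred_eq]
  constructor
  · rintro ⟨l, hl, hv⟩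
    exact ⟨l.toFinset, ⟨l, hl, rfl⟩, List.mem_toFinset.2 hv⟩
  · rintro ⟨_, ⟨l, hl, rfl⟩, hv⟩
    exact ⟨l, hl, List.mem_toFinset.1 hv⟩

theorem rel_lt {ψ : List Cl3} (h : Small3 ψ) {i : ℕ} {c : Bool} {j : ℕ} (hR : Rel ψ i (c, j)) :
    j < 3 * ψ.length := by
  obtain ⟨cl, hcl, hl⟩ := hR
  have := h cl (List.mem_of_getElem? hcl)
  rcases hl with hl | hl | hl
  · rw [← hl] at this; exact this.1
  · rw [← hl] at this; exact this.2.1
  · rw [← hl] at this; exact this.2.2

theorem verts_build {ψ : List Cl3} (h : Small3 ψ) :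
    verts (build ψ) = (board (3 * ψ.length) ψ.length).map code := by
  set n := 3 * ψ.length with hn
  set m := ψ.length with hm
  ext v
  rw [mem_verts, Finset.mem_map]
  constructor
  · rintro ⟨e, he, hv⟩
    rw [mem_build] at he
    obtain ⟨s, hs, rfl⟩ := he
    rw [Finset.mem_map] at hv
    obtain ⟨u, hu, rfl⟩ := hv
    refine ⟨u, ?_, rfl⟩
    rw [mem_board]
    have hZ : ∀ k ≤ n, u ∈ Zs k → ∃ j < n, u = x j true ∨ u = x j false ∨ u = y j ∨ u = t j ∨
        u = z j := by
      intro k hk hu
      rw [mem_Zs] at hu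
      obtain ⟨j, hj, rfl⟩ := hu
      exact ⟨j, by omega, by simp⟩
    have hG : ∀ k ≤ m, u ∈ Gs k → ∃ i < m, u = g i ∨ u = Vx.h i ∨ u = b i := by
      intro k hk hu
      rw [mem_Gs] at hu
      obtain ⟨j, hj, rfl⟩ := hu
      exact ⟨j, by omega, by simp⟩
    cases hs with
    | xx j hj =>
      rw [Finset.mem_union] at hu
      rcases hu with hu | hu
      · exact Or.inl (hZ j (by omega) hu)
      · simp only [Finset.mem_insert, Finset.mem_singleton] at hu
        exact Or.inl ⟨j, hj, by tauto⟩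
    | yt j k hj hk =>
      rw [Finset.mem_union, Finset.mem_union, Finset.mem_union] at hu
      rcases hu with hu | hu | hu | hu
      · exact Or.inl (hZ j (by omega) hu)
      · simp only [Finset.mem_insert, Finset.mem_singleton] at hu
        exact Or.inl ⟨j, hj, by tauto⟩
      · exact Or.inr (hG k (by omega) hu)
      · simp only [Finset.mem_singleton] at hu
        exact Or.inr ⟨k, hk, by tauto⟩
    | ye j hj =>
      rw [Finset.mem_union, Finset.mem_union] at hu
      rcases hu with hu | hu | hu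
      · exact Or.inl (hZ j (by omega) hu)
      · simp only [Finset.mem_insert, Finset.mem_singleton] at hu
        exact Or.inl ⟨j, hj, by tauto⟩
      · exact Or.inr (hG m (by omega) hu)
    | long j hj =>
      rw [Finset.mem_union] at hu
      rcases hu with hu | hu
      · exact Or.inl (hZ n (by omega) hu)
      · simp only [Finset.mem_singleton] at hu
        exact Or.inl ⟨j, hj, by tauto⟩
    | cl i j c hi hR =>
      rw [Finset.mem_union, Finset.mem_union] at hu
      rcases hu with hu | hu | hu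
      · exact Or.inl (hZ n (by omega) hu)
      · exact Or.inr (hG i (by omega) hu)
      · simp only [Finset.mem_insert, Finset.mem_singleton] at hu
        rcases hu with hu | hu
        · exact Or.inr ⟨i, hi, by tauto⟩
        · refine Or.inl ⟨j, rel_lt h hR, ?_⟩
          cases c <;> tauto
    | ce =>
      rw [Finset.mem_union] at hu
      rcases hu with hu | hu
      · exact Or.inl (hZ n (by omega) hu)
      · exact Or.inr (hG m (by omega) hu)
  · rintro ⟨u, hu, rfl⟩
    have key : ∀ s, Edge n m (Rel ψ) s → u ∈ s → ∃ e ∈ edgeSet (build ψ), code u ∈ e := by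
      intro s hs hus
      refine ⟨s.map code, ?_, Finset.mem_map_of_mem _ hus⟩
      rw [mem_build]
      exact ⟨s, hs, rfl⟩
    rw [mem_board] at hu
    rcases hu with ⟨j, hj, rfl | rfl | rfl | rfl | rfl⟩ | ⟨i, hi, rfl | rfl | rfl⟩
    · exact key _ (Edge.xx j hj) (by simp)
    · exact key _ (Edge.xx j hj) (by simp)
    · exact key _ (Edge.ye j hj) (by simp)
    · exact key _ (Edge.ye j hj) (by simp)
    · exact key _ Edge.ce (by simp [hj])
    · exact key _ Edge.ce (by simp [hi])
    · have hget : ψ[i]? = some (ψ[i]'hi) := List.getElem?_eq_getElem hi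
      exact key _ (Edge.cl i ((ψ[i]'hi).1.2) ((ψ[i]'hi).1.1) hi ⟨_, hget, Or.inl rfl⟩) (by simp)
    · exact key _ (Edge.yt 0 i (by omega) hi) (by simp)

theorem build_nodup (ψ : List Cl3) : ∀ e ∈ build ψ, e.Nodup := by
  intro e he
  have hz : ∀ N k (l : List ℕ), l.Nodup → (∀ v ∈ l, v % 8 ≠ 4) → (zl N k ++ l).Nodup := by
    intro N k l h1 h2
    refine List.Nodup.append (zl_nodup N k) h1 ?_
    intro v hv hv'
    obtain ⟨i, _, rfl⟩ := mem_zl hv
    exact h2 _ hv' (by omega)
  have hg : ∀ N k (l : List ℕ), l.Nodup → (∀ v ∈ l, v % 8 ≠ 5) → (gl N k ++ l).Nodup := by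
    intro N k l h1 h2
    refine List.Nodup.append (gl_nodup N k) h1 ?_
    intro v hv hv'
    obtain ⟨i, _, rfl⟩ := mem_gl hv
    exact h2 _ hv' (by omega)
  have hgm : ∀ N k v, v ∈ gl N k → v % 8 = 5 := by
    intro N k v hv
    obtain ⟨i, _, rfl⟩ := mem_gl hv
    omega
  simp only [build, List.mem_append] at he
  rcases he with he | he | he | he | he | he
  · simp only [l1, List.mem_map] at he
    obtain ⟨j, _, rfl⟩ := he
    refine hz _ _ _ (by simp) ?_
    intro v hv
    simp only [List.mem_cons, List.not_mem_nil, or_false] at hv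
    rcases hv with rfl | rfl <;> omega
  · simp only [l2, List.mem_flatMap, List.mem_map] at he
    obtain ⟨j, _, k, _, rfl⟩ := he
    refine hz _ _ _ ?_ ?_
    · refine List.Nodup.append (by simp) (hg _ _ _ (by simp) ?_) ?_
      · intro v hv
        simp only [List.mem_singleton] at hv
        omega
      · intro v hv hv'
        simp only [List.mem_cons, List.not_mem_nil, or_false, List.mem_append] at hv hv'
        rcases hv' with hv' | hv'
        · have := hgm _ _ _ hv'
          omega
        · omega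
    · intro v hv
      simp only [List.mem_cons, List.not_mem_nil, or_false, List.mem_append] at hv
      rcases hv with (hv | hv) | hv | hv
      · omega
      · omega
      · have := hgm _ _ _ hv
        omega
      · omega
  · simp only [l3, List.mem_map] at he
    obtain ⟨j, _, rfl⟩ := he
    refine hz _ _ _ ?_ ?_
    · refine List.Nodup.append (by simp) (gl_nodup _ _) ?_
      intro v hv hv'
      have := hgm _ _ _ hv'
      simp only [List.mem_cons, List.not_mem_nil, or_false] at hv
      omega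
    · intro v hv
      simp only [List.mem_cons, List.not_mem_nil, or_false, List.mem_append] at hv
      rcases hv with (hv | hv) | hv
      · omega
      · omega
      · have := hgm _ _ _ hv
        omega
  · simp only [l4, List.mem_map] at he
    obtain ⟨j, _, rfl⟩ := he
    refine hz _ _ _ (by simp) ?_
    intro v hv
    simp only [List.mem_singleton] at hv
    omega
  · simp only [l5, List.mem_flatMap, List.mem_map] at he
    obtain ⟨⟨c, i⟩, _, l, _, rfl⟩ := he
    have hlit : lit l % 8 = 0 ∨ lit l % 8 = 1 := by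
      obtain ⟨c, j⟩ := l
      cases c <;> simp [lit]
    refine hz _ _ _ (hg _ _ _ ?_ ?_) ?_
    · simp only [List.nodup_cons, List.mem_singleton, List.not_mem_nil, not_false_eq_true,
        List.nodup_nil, and_true]
      omega
    · intro v hv
      simp only [List.mem_cons, List.not_mem_nil, or_false] at hv
      omega
    · intro v hv
      simp only [List.mem_cons, List.not_mem_nil, or_false, List.mem_append] at hv
      rcases hv with hv | hv | hv
      · have := hgm _ _ _ hv
        omega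
      · omega
      · omega
  · simp only [l6, List.mem_singleton] at he
    subst he
    refine hz _ _ _ (gl_nodup _ _) ?_
    intro v hv
    have := hgm _ _ _ hv
    omega

/-- The reduction is correct. -/
theorem build_correct {ψ : List Cl3} (h : Small3 ψ) : SAT3 ψ ↔ WaiterClient (build ψ) := by
  have h1 : WaiterWins (verts (build ψ)) (edgeSet (build ψ)) ↔
      WaiterWins (board (3 * ψ.length) ψ.length) (edges (3 * ψ.length) ψ.length (Rel ψ)) := by
    have h2 : edgeSet (build ψ) = (fun s : Finset Vx => s.map code) ''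
        edges (3 * ψ.length) ψ.length (Rel ψ) := Set.ext fun e => mem_build
    rw [verts_build h, h2]
    exact waiterWins_map code _ _
  unfold WaiterClient
  rw [h1, and_iff_right (build_nodup ψ)]
  constructor
  · rintro ⟨τ, hτ⟩
    refine waiter_wins τ fun i hi => ?_
    have hget : ψ[i]? = some (ψ[i]'hi) := List.getElem?_eq_getElem hi
    rcases hτ _ (List.getElem_mem hi) with h' | h' | h'
    · have hR : Rel ψ i (τ (ψ[i]'hi).1.2, (ψ[i]'hi).1.2) := ⟨_, hget, Or.inl (by rw [h'])⟩
      exact ⟨_, rel_lt h hR, hR⟩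
    · have hR : Rel ψ i (τ (ψ[i]'hi).2.1.2, (ψ[i]'hi).2.1.2) :=
        ⟨_, hget, Or.inr (Or.inl (by rw [h']))⟩
      exact ⟨_, rel_lt h hR, hR⟩
    · have hR : Rel ψ i (τ (ψ[i]'hi).2.2.2, (ψ[i]'hi).2.2.2) :=
        ⟨_, hget, Or.inr (Or.inr (by rw [h']))⟩
      exact ⟨_, rel_lt h hR, hR⟩
  · intro hW
    by_contra hcon
    refine not_waiter_wins ?_ (fun i _ c j hR => rel_lt h hR) hW
    intro τ
    by_contra hcon'
    push Not at hcon'
    refine hcon ⟨τ, fun c hc => ?_⟩
    obtain ⟨i, hi, rfl⟩ := List.getElem_of_mem hc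
    obtain ⟨c, j, ⟨cl, hcl, hl⟩, hτ⟩ := hcon' i hi
    have hcl' : ψ[i]'hi = cl := by
      rw [List.getElem?_eq_getElem hi] at hcl
      exact Option.some.inj hcl
    rw [hcl']
    rcases hl with hl | hl | hl
    · left; rw [← hl]; exact hτ
    · right; left; rw [← hl]; exact hτ
    · right; right; rw [← hl]; exact hτ

/-! ### Polynomial time -/

theorem zl_poly {α : Type} [TEnc α] {N k : α → ℕ} (hN : UPoly N) (hk : Poly k) :
    Poly (fun a => zl (N a) (k a)) := by
  refine Poly.map (F := fun _ (i : ℕ) => 8 * i + 4)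
    (Poly.filter (p := fun a (i : ℕ) => decide (i < k a)) hN.range
      (Poly.decide_lt (Poly.snd Poly.id) (hk.comp (Poly.fst Poly.id))))
    (Poly.add (Poly.mul (Poly.const 8) (Poly.snd Poly.id)) (Poly.const 4))

theorem gl_poly {α : Type} [TEnc α] {N k : α → ℕ} (hN : UPoly N) (hk : Poly k) :
    Poly (fun a => gl (N a) (k a)) := by
  refine Poly.map (F := fun _ (i : ℕ) => 8 * i + 5)
    (Poly.filter (p := fun a (i : ℕ) => decide (i < k a)) hN.range
      (Poly.decide_lt (Poly.snd Poly.id) (hk.comp (Poly.fst Poly.id))))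
    (Poly.add (Poly.mul (Poly.const 8) (Poly.snd Poly.id)) (Poly.const 5))

theorem lin_poly {α : Type} [TEnc α] {k : α → ℕ} (hk : Poly k) (c : ℕ) :
    Poly (fun a => 8 * k a + c) :=
  Poly.add (Poly.mul (Poly.const 8) hk) (Poly.const c)

theorem lit_poly {α : Type} [TEnc α] {l : α → Lit ℕ} (hl : Poly l) : Poly (fun a => lit (l a)) :=
  Poly.cond (Poly.fst hl) (Poly.mul (Poly.const 8) (Poly.snd hl))
    (lin_poly (Poly.snd hl) 1)

theorem build_poly : Poly build := by
  have hm : UPoly (fun ψ : List Cl3 => ψ.length) := UPoly.length Poly.id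
  have hn : UPoly (fun ψ : List Cl3 => 3 * ψ.length) := UPoly.mul (UPoly.const 3) hm
  have id1 : Poly (fun p : List Cl3 × ℕ => p.1) := Poly.fst Poly.id
  have id2 : Poly (fun p : List Cl3 × ℕ => p.2) := Poly.snd Poly.id
  have hn1 : UPoly (fun p : List Cl3 × ℕ => 3 * p.1.length) := hn.comp id1
  have hm1 : UPoly (fun p : List Cl3 × ℕ => p.1.length) := hm.comp id1
  refine Poly.append ?_ (Poly.append ?_ (Poly.append ?_ (Poly.append ?_ (Poly.append ?_ ?_))))
  · refine Poly.map (F := fun (ψ : List Cl3) (j : ℕ) =>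
      zl (3 * ψ.length) j ++ [8 * j, 8 * j + 1]) hn.range ?_
    exact Poly.append (zl_poly hn1 id2) (Poly.cons (Poly.mul (Poly.const 8) id2)
      (Poly.cons (lin_poly id2 1) (Poly.const [])))
  · refine Poly.flatMap (F := fun (ψ : List Cl3) (j : ℕ) => (List.range ψ.length).map (fun k =>
      zl (3 * ψ.length) j ++ ([8 * j + 2, 8 * j + 3] ++ (gl ψ.length k ++ [8 * k + 7]))))
      hn.range ?_
    refine Poly.map (F := fun (p : List Cl3 × ℕ) (k : ℕ) =>
      zl (3 * p.1.length) p.2 ++ ([8 * p.2 + 2, 8 * p.2 + 3] ++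
        (gl p.1.length k ++ [8 * k + 7]))) hm1.range ?_
    have jd1 : Poly (fun p : (List Cl3 × ℕ) × ℕ => p.1.1) := Poly.fst (Poly.fst Poly.id)
    have jd2 : Poly (fun p : (List Cl3 × ℕ) × ℕ => p.1.2) := Poly.snd (Poly.fst Poly.id)
    have jd3 : Poly (fun p : (List Cl3 × ℕ) × ℕ => p.2) := Poly.snd Poly.id
    exact Poly.append (zl_poly (hn.comp jd1) jd2) (Poly.append
      (Poly.cons (lin_poly jd2 2) (Poly.cons (lin_poly jd2 3) (Poly.const [])))
      (Poly.append (gl_poly (hm.comp jd1) jd3) (Poly.cons (lin_poly jd3 7) (Poly.const []))))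
  · refine Poly.map (F := fun (ψ : List Cl3) (j : ℕ) =>
      zl (3 * ψ.length) j ++ ([8 * j + 2, 8 * j + 3] ++ gl ψ.length ψ.length)) hn.range ?_
    exact Poly.append (zl_poly hn1 id2) (Poly.append
      (Poly.cons (lin_poly id2 2) (Poly.cons (lin_poly id2 3) (Poly.const [])))
      (gl_poly hm1 hm1.toPoly))
  · refine Poly.map (F := fun (ψ : List Cl3) (j : ℕ) =>
      zl (3 * ψ.length) (3 * ψ.length) ++ [8 * j + 2]) hn.range ?_
    exact Poly.append (zl_poly hn1 hn1.toPoly) (Poly.cons (lin_poly id2 2) (Poly.const []))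
  · refine Poly.flatMap (F := fun (ψ : List Cl3) (p : Cl3 × ℕ) =>
      [p.1.1, p.1.2.1, p.1.2.2].map (fun l => zl (3 * ψ.length) (3 * ψ.length) ++
        (gl ψ.length p.2 ++ [8 * p.2 + 6, lit l]))) (Poly.zipIdx Poly.id) ?_
    have k1 : Poly (fun p : List Cl3 × (Cl3 × ℕ) => p.1) := Poly.fst Poly.id
    have k2 : Poly (fun p : List Cl3 × (Cl3 × ℕ) => p.2.1) := Poly.fst (Poly.snd Poly.id)
    refine Poly.map (F := fun (p : List Cl3 × (Cl3 × ℕ)) (l : Lit ℕ) =>
      zl (3 * p.1.length) (3 * p.1.length) ++ (gl p.1.length p.2.2 ++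
        [8 * p.2.2 + 6, lit l])) ?_ ?_
    · exact Poly.cons (Poly.fst k2) (Poly.cons (Poly.fst (Poly.snd k2))
        (Poly.cons (Poly.snd (Poly.snd k2)) (Poly.const [])))
    · have j1 : Poly (fun p : (List Cl3 × (Cl3 × ℕ)) × Lit ℕ => p.1.1) :=
        Poly.fst (Poly.fst Poly.id)
      have j2 : Poly (fun p : (List Cl3 × (Cl3 × ℕ)) × Lit ℕ => p.1.2.2) :=
        Poly.snd (Poly.snd (Poly.fst Poly.id))
      have j3 : Poly (fun p : (List Cl3 × (Cl3 × ℕ)) × Lit ℕ => p.2) := Poly.snd Poly.id
      exact Poly.append (zl_poly (hn.comp j1) (hn.comp j1).toPoly)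
        (Poly.append (gl_poly (hm.comp j1) j2)
          (Poly.cons (lin_poly j2 6) (Poly.cons (lit_poly j3) (Poly.const []))))
  · exact Poly.cons (Poly.append (zl_poly hn hn.toPoly) (gl_poly hm hm.toPoly)) (Poly.const [])

/-! ### Hardness -/

/-- Renaming makes the variables small. -/
theorem small_ren3 (φ : List Cl3) : Small3 (ren3 φ) := by
  intro c hc
  have hlen : (ren3 φ).length = φ.length := by simp [ren3]
  have hv : (vars3 φ).length = 3 * φ.length := by
    unfold vars3
    rw [List.length_flatMap]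
    simp
    ring
  have hidx : ∀ v ∈ vars3 φ, index (vars3 φ) v < 3 * (ren3 φ).length := by
    intro v hv'
    have h1 := getElem?_index hv'
    rw [hlen, ← hv]
    by_contra hcon
    rw [List.getElem?_eq_none (not_lt.1 hcon)] at h1
    exact absurd h1 (by simp)
  unfold ren3 at hc
  rw [List.mem_map] at hc
  obtain ⟨d, hd, rfl⟩ := hc
  obtain ⟨h1, h2, h3⟩ := mem_vars3 hd
  exact ⟨hidx _ h1, hidx _ h2, hidx _ h3⟩

theorem hardI_waiterClient : HardI WaiterClient :=
  hardI_SAT3.trans (Q := WaiterClient) (f := fun φ => build (ren3 φ))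
    (build_poly.comp ren3_poly)
    (fun φ => (ren3_sat φ).trans (build_correct (small_ren3 φ)))

/-- The list of the vertices. -/
def vlist (H : List (List ℕ)) : List ℕ :=
  (H.flatten.zipIdx.filter (fun p => !(H.flatten.zipIdx.any
    (fun q => decide (q.1 = p.1) && decide (q.2 < p.2))))).map (fun p => p.1)

theorem vlist_poly : Poly vlist := by
  have h1 : Poly (fun H : List (List ℕ) => H.flatten.zipIdx) := Poly.zipIdx (Poly.flatten Poly.id)
  refine Poly.map (F := fun _ (p : ℕ × ℕ) => p.1) (Poly.filter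
    (p := fun (H : List (List ℕ)) (p : ℕ × ℕ) => !(H.flatten.zipIdx.any
      (fun q => decide (q.1 = p.1) && decide (q.2 < p.2)))) h1 ?_) (Poly.fst (Poly.snd Poly.id))
  refine Poly.not (Poly.any (p := fun (x : List (List ℕ) × (ℕ × ℕ)) (q : ℕ × ℕ) =>
    decide (q.1 = x.2.1) && decide (q.2 < x.2.2)) (h1.comp (Poly.fst Poly.id)) ?_)
  exact Poly.and (Poly.decide_eq (Poly.fst (Poly.snd Poly.id))
    (Poly.fst (Poly.snd (Poly.fst Poly.id))))
    (Poly.decide_lt (Poly.snd (Poly.snd Poly.id)) (Poly.snd (Poly.snd (Poly.fst Poly.id))))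

theorem mem_vlist {H : List (List ℕ)} {v : ℕ} : v ∈ vlist H ↔ v ∈ H.flatten := by
  unfold vlist
  simp only [List.mem_map, List.mem_filter]
  constructor
  · rintro ⟨⟨u, k⟩, ⟨hp, _⟩, rfl⟩
    rw [List.mem_zipIdx_iff_getElem?] at hp
    exact List.mem_of_getElem? hp
  · intro hv
    classical
    have hex : ∃ k : ℕ, H.flatten[k]? = some v := by
      obtain ⟨k, hk, hkv⟩ := List.getElem_of_mem hv
      exact ⟨k, by rw [List.getElem?_eq_getElem hk, hkv]⟩
    have hsp : H.flatten[Nat.find hex]? = some v := Nat.find_spec hex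
    refine ⟨(v, Nat.find hex), ⟨List.mem_zipIdx_iff_getElem?.2 hsp, ?_⟩, rfl⟩
    rw [Bool.not_eq_true', List.any_eq_false]
    rintro ⟨u, k⟩ hu
    rw [List.mem_zipIdx_iff_getElem?] at hu
    simp only [Bool.and_eq_true, decide_eq_true_eq, not_and, not_lt]
    rintro rfl
    exact Nat.find_min' hex hu

theorem vlist_nodup (H : List (List ℕ)) : (vlist H).Nodup := by
  unfold vlist
  refine List.Nodup.map_on ?_ (List.Nodup.filter _ ?_)
  · rintro ⟨u, k⟩ hu ⟨v, l⟩ hv huv
    simp only at huv
    subst huv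
    rw [List.mem_filter, Bool.not_eq_true', List.any_eq_false] at hu hv
    have h1 := hu.2 (u, l) hv.1
    have h2 := hv.2 (u, k) hu.1
    simp only [decide_true, Bool.true_and, decide_eq_true_eq, not_lt] at h1 h2
    rw [le_antisymm h1 h2]
  · refine List.Nodup.of_map Prod.snd ?_
    rw [List.zipIdx_map_snd]
    exact List.nodup_range'

theorem hardI_waiterClientV : HardI WaiterClientV := by
  refine hardI_waiterClient.trans (Q := WaiterClientV)
    (f := fun H => (vlist H, H)) (Poly.pair vlist_poly Poly.id) fun H => ?_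
  unfold WaiterClient WaiterClientV
  have h1 : (vlist H).toFinset = verts H := by
    ext v
    rw [List.mem_toFinset, mem_vlist, verts, List.mem_toFinset]
  simp only [h1]
  constructor
  · rintro ⟨h2, h3⟩
    exact ⟨vlist_nodup H, fun e he => ⟨h2 e he, fun v hv =>
      mem_vlist.2 (List.mem_flatten.2 ⟨e, he, hv⟩)⟩, h3⟩
  · rintro ⟨_, h2, h3⟩
    exact ⟨fun e he => (h2 e he).1, h3⟩

end Pool.Agent.NPC.H235WC
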