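import Pool.Agent.H235R3.WC.Client
import Pool.Agent.NPC.Sat

/-!
# The reduction from 3SAT
-/

namespace Pool.Agent.H235R3.WC

open Pool.Agent.NPC Vx

/-- The vertices of a hypergraph that is given by the list of its edges. -/
def verts (H : List (List ℕ)) : Finset ℕ := H.flatten.toFinset

/-- The family of the edges, as sets. -/
def edgeSet (H : List (List ℕ)) : Set (Finset ℕ) := {e | ∃ l ∈ H, e = l.toFinset}

/-- WAITER-CLIENT with explicitly listed edges: the input is a list of edges, each of which is
written out as the list of its (pairwise different) vertices. The vertices of the hypergraph are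
the numbers which occur in the list. Does Waiter have a winning strategy? -/
def WaiterClient (H : List (List ℕ)) : Prop :=
  (∀ e ∈ H, e.Nodup) ∧ WaiterWins (verts H) (edgeSet H)

/-- The same problem if the input consists of the list of the vertices and the list of the
edges. -/
def WaiterClientV (I : List ℕ × List (List ℕ)) : Prop :=
  I.1.Nodup ∧ (∀ e ∈ I.2, e.Nodup ∧ ∀ v ∈ e, v ∈ I.1) ∧ WaiterWins I.1.toFinset (edgeSet I.2)

/-- Clauses. -/
abbrev Cl3 : Type := Lit ℕ × Lit ℕ × Lit ℕ

/-- The numbers of the vertices. -/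
def codeF : Vx → ℕ
  | x j true => 8 * j
  | x j false => 8 * j + 1
  | y j => 8 * j + 2
  | t j => 8 * j + 3
  | z j => 8 * j + 4
  | g i => 8 * i + 5
  | h i => 8 * i + 6
  | b i => 8 * i + 7

theorem codeF_injective : Function.Injective codeF := by
  intro u v huv
  cases u with
  | x j c => cases c <;> (cases v with
    | x j' c' => cases c' <;> simp only [codeF] at huv <;> simp <;> omega
    | _ => simp only [codeF] at huv; omega)
  | y j => cases v with
    | x j' c' => cases c' <;> simp only [codeF] at huv <;> omega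
    | y j' => simp only [codeF] at huv; simp; omega
    | _ => simp only [codeF] at huv; omega
  | t j => cases v with
    | x j' c' => cases c' <;> simp only [codeF] at huv <;> omega
    | t j' => simp only [codeF] at huv; simp; omega
    | _ => simp only [codeF] at huv; omega
  | z j => cases v with
    | x j' c' => cases c' <;> simp only [codeF] at huv <;> omega
    | z j' => simp only [codeF] at huv; simp; omega
    | _ => simp only [codeF] at huv; omega
  | g j => cases v with
    | x j' c' => cases c' <;> simp only [codeF] at huv <;> omega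
    | g j' => simp only [codeF] at huv; simp; omega
    | _ => simp only [codeF] at huv; omega
  | h j => cases v with
    | x j' c' => cases c' <;> simp only [codeF] at huv <;> omega
    | h j' => simp only [codeF] at huv; simp; omega
    | _ => simp only [codeF] at huv; omega
  | b j => cases v with
    | x j' c' => cases c' <;> simp only [codeF] at huv <;> omega
    | b j' => simp only [codeF] at huv; simp; omega
    | _ => simp only [codeF] at huv; omega

/-- The numbering as an embedding. -/
def code : Vx ↪ ℕ := ⟨codeF, codeF_injective⟩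

theorem code_apply (v : Vx) : code v = codeF v := rfl

/-! ### The lists -/

/-- The vertices `z_i` with `i < k` (for `k ≤ N`). -/
def zl (N k : ℕ) : List ℕ := ((List.range N).filter (fun i => decide (i < k))).map (8 * · + 4)

/-- The vertices `g_i` with `i < k` (for `k ≤ N`). -/
def gl (N k : ℕ) : List ℕ := ((List.range N).filter (fun i => decide (i < k))).map (8 * · + 5)

/-- The number of a literal. -/
def lit (l : Lit ℕ) : ℕ := bif l.1 then 8 * l.2 else 8 * l.2 + 1

/-- The edges of the first kind. -/
def l1 (n : ℕ) : List (List ℕ) := (List.range n).map (fun j => zl n j ++ [8 * j, 8 * j + 1])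

/-- The edges of the second kind. -/
def l2 (n m : ℕ) : List (List ℕ) := (List.range n).flatMap (fun j => (List.range m).map (fun k =>
  zl n j ++ ([8 * j + 2, 8 * j + 3] ++ (gl m k ++ [8 * k + 7]))))

/-- The edges of the third kind. -/
def l3 (n m : ℕ) : List (List ℕ) :=
  (List.range n).map (fun j => zl n j ++ ([8 * j + 2, 8 * j + 3] ++ gl m m))

/-- The edges of the fourth kind. -/
def l4 (n : ℕ) : List (List ℕ) := (List.range n).map (fun j => zl n n ++ [8 * j + 2])

/-- The edges of the fifth kind. -/
def l5 (n m : ℕ) (ψ : List Cl3) : List (List ℕ) := ψ.zipIdx.flatMap (fun p =>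
  [p.1.1, p.1.2.1, p.1.2.2].map (fun l => zl n n ++ (gl m p.2 ++ [8 * p.2 + 6, lit l])))

/-- The last edge. -/
def l6 (n m : ℕ) : List (List ℕ) := [zl n n ++ gl m m]

/-- The hypergraph of a formula. -/
def build (ψ : List Cl3) : List (List ℕ) :=
  l1 (3 * ψ.length) ++ (l2 (3 * ψ.length) ψ.length ++ (l3 (3 * ψ.length) ψ.length ++
    (l4 (3 * ψ.length) ++ (l5 (3 * ψ.length) ψ.length ψ ++ l6 (3 * ψ.length) ψ.length))))

theorem zl_toFinset {N k : ℕ} (h : k ≤ N) : (zl N k).toFinset = (Zs k).map code := by
  ext v
  simp only [zl, List.mem_toFinset, List.mem_map, List.mem_filter, List.mem_range,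
    decide_eq_true_eq, Finset.mem_map, mem_Zs]
  constructor
  · rintro ⟨i, ⟨_, hi⟩, rfl⟩
    exact ⟨z i, ⟨i, hi, rfl⟩, rfl⟩
  · rintro ⟨_, ⟨i, hi, rfl⟩, rfl⟩
    exact ⟨i, ⟨by omega, hi⟩, rfl⟩

theorem gl_toFinset {N k : ℕ} (h : k ≤ N) : (gl N k).toFinset = (Gs k).map code := by
  ext v
  simp only [gl, List.mem_toFinset, List.mem_map, List.mem_filter, List.mem_range,
    decide_eq_true_eq, Finset.mem_map, mem_Gs]
  constructor
  · rintro ⟨i, ⟨_, hi⟩, rfl⟩
    exact ⟨g i, ⟨i, hi, rfl⟩, rfl⟩
  · rintro ⟨_, ⟨i, hi, rfl⟩, rfl⟩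
    exact ⟨i, ⟨by omega, hi⟩, rfl⟩

theorem mem_zl {N k v : ℕ} (h : v ∈ zl N k) : ∃ i < N, v = 8 * i + 4 := by
  simp only [zl, List.mem_map, List.mem_filter, List.mem_range] at h
  obtain ⟨i, ⟨hi, _⟩, rfl⟩ := h
  exact ⟨i, hi, rfl⟩

theorem mem_gl {N k v : ℕ} (h : v ∈ gl N k) : ∃ i < N, v = 8 * i + 5 := by
  simp only [gl, List.mem_map, List.mem_filter, List.mem_range] at h
  obtain ⟨i, ⟨hi, _⟩, rfl⟩ := h
  exact ⟨i, hi, rfl⟩

theorem zl_nodup (N k : ℕ) : (zl N k).Nodup :=
  List.Nodup.map (fun a b (hab : 8 * a + 4 = 8 * b + 4) => by omega)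
    (List.nodup_range.filter _)

theorem gl_nodup (N k : ℕ) : (gl N k).Nodup :=
  List.Nodup.map (fun a b (hab : 8 * a + 5 = 8 * b + 5) => by omega)
    (List.nodup_range.filter _)

theorem lit_eq (l : Lit ℕ) : lit l = code (x l.2 l.1) := by
  obtain ⟨c, j⟩ := l
  cases c <;> rfl

/-! ### The edges -/

/-- The literals of the clauses. -/
def Rel (ψ : List Cl3) (i : ℕ) (l : Bool × ℕ) : Prop :=
  ∃ c, ψ[i]? = some c ∧ (l = c.1 ∨ l = c.2.1 ∨ l = c.2.2)

theorem mem_build {ψ : List Cl3} {e : Finset ℕ} :
    e ∈ edgeSet (build ψ) ↔ e ∈ (fun s : Finset Vx => s.map code) ''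
      edges (3 * ψ.length) ψ.length (Rel ψ) := by
  have hpair : ∀ u v : Vx, ({u, v} : Finset Vx).map code = {code u, code v} := by
    intro u v
    rw [Finset.map_insert, Finset.map_singleton]
  set n := 3 * ψ.length with hn
  set m := ψ.length with hm
  have hb : build ψ = l1 n ++ (l2 n m ++ (l3 n m ++ (l4 n ++ (l5 n m ψ ++ l6 n m)))) := rfl
  rw [hb]
  simp only [edgeSet, Set.mem_ofPred_eq, List.mem_append, Set.mem_image]
  constructor
  · rintro ⟨l, hl | hl | hl | hl | hl | hl, rfl⟩
    · simp only [l1, List.mem_map, List.mem_range] at hl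
      obtain ⟨j, hj, rfl⟩ := hl
      refine ⟨_, Edge.xx j hj, ?_⟩
      rw [Finset.map_union, hpair, List.toFinset_append, zl_toFinset hj.le]
      congr 1
      ext v; simp [code_apply, codeF]
    · simp only [l2, List.mem_flatMap, List.mem_map, List.mem_range] at hl
      obtain ⟨j, hj, k, hk, rfl⟩ := hl
      refine ⟨_, Edge.yt j k hj hk, ?_⟩
      rw [Finset.map_union, Finset.map_union, Finset.map_union, hpair, List.toFinset_append,
        List.toFinset_append, List.toFinset_append, zl_toFinset hj.le, gl_toFinset hk.le]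
      congr 1
      congr 1
      ext v; simp [code_apply, codeF]
    · simp only [l3, List.mem_map, List.mem_range] at hl
      obtain ⟨j, hj, rfl⟩ := hl
      refine ⟨_, Edge.ye j hj, ?_⟩
      rw [Finset.map_union, Finset.map_union, hpair, List.toFinset_append,
        List.toFinset_append, zl_toFinset hj.le, gl_toFinset le_rfl]
      congr 1
      congr 1
      ext v; simp [code_apply, codeF]
    · simp only [l4, List.mem_map, List.mem_range] at hl
      obtain ⟨j, hj, rfl⟩ := hl
      refine ⟨_, Edge.long j hj, ?_⟩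
      rw [Finset.map_union, List.toFinset_append, zl_toFinset le_rfl]
      congr 1
    · simp only [l5, List.mem_flatMap, List.mem_map] at hl
      obtain ⟨⟨c, i⟩, hci, l, hl, rfl⟩ := hl
      rw [List.mem_zipIdx_iff_getElem?] at hci
      simp only at hci
      have hi : i < m := by
        rw [hm]
        exact (List.getElem?_eq_some_iff.1 hci).1
      refine ⟨_, Edge.cl i l.2 l.1 hi ⟨c, hci, by simpa using hl⟩, ?_⟩
      rw [Finset.map_union, Finset.map_union, hpair, List.toFinset_append,
        List.toFinset_append, zl_toFinset le_rfl, gl_toFinset hi.le, lit_eq]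
      congr 1
      congr 1
      ext v; simp [code_apply, codeF]
    · simp only [l6, List.mem_singleton] at hl
      subst hl
      refine ⟨_, Edge.ce, ?_⟩
      rw [Finset.map_union, List.toFinset_append, zl_toFinset le_rfl, gl_toFinset le_rfl]
  · rintro ⟨s, hs, rfl⟩
    cases hs with
    | xx j hj =>
      refine ⟨_, Or.inl (List.mem_map.2 ⟨j, List.mem_range.2 hj, rfl⟩), ?_⟩
      rw [Finset.map_union, hpair, List.toFinset_append, zl_toFinset hj.le]
      congr 1
      ext v; simp [code_apply, codeF]
    | yt j k hj hk =>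
      refine ⟨_, Or.inr (Or.inl (List.mem_flatMap.2 ⟨j, List.mem_range.2 hj,
        List.mem_map.2 ⟨k, List.mem_range.2 hk, rfl⟩⟩)), ?_⟩
      rw [Finset.map_union, Finset.map_union, Finset.map_union, hpair, List.toFinset_append,
        List.toFinset_append, List.toFinset_append, zl_toFinset hj.le, gl_toFinset hk.le]
      congr 1
      congr 1
      ext v; simp [code_apply, codeF]
    | ye j hj =>
      refine ⟨_, Or.inr (Or.inr (Or.inl (List.mem_map.2 ⟨j, List.mem_range.2 hj, rfl⟩))), ?_⟩
      rw [Finset.map_union, Finset.map_union, hpair, List.toFinset_append,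
        List.toFinset_append, zl_toFinset hj.le, gl_toFinset le_rfl]
      congr 1
      congr 1
      ext v; simp [code_apply, codeF]
    | long j hj =>
      refine ⟨_, Or.inr (Or.inr (Or.inr (Or.inl
        (List.mem_map.2 ⟨j, List.mem_range.2 hj, rfl⟩)))), ?_⟩
      rw [Finset.map_union, List.toFinset_append, zl_toFinset le_rfl]
      congr 1
    | cl i j c hi hR =>
      obtain ⟨cl, hcl, hl⟩ := hR
      refine ⟨_, Or.inr (Or.inr (Or.inr (Or.inr (Or.inl (List.mem_flatMap.2 ⟨(cl, i),
        List.mem_zipIdx_iff_getElem?.2 hcl, List.mem_map.2 ⟨(c, j), by simpa using hl,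
          rfl⟩⟩))))), ?_⟩
      rw [Finset.map_union, Finset.map_union, hpair, List.toFinset_append,
        List.toFinset_append, zl_toFinset le_rfl, gl_toFinset hi.le, lit_eq]
      congr 1
      congr 1
      ext v; simp [code_apply, codeF]
    | ce =>
      refine ⟨_, Or.inr (Or.inr (Or.inr (Or.inr (Or.inr (List.mem_singleton.2 rfl))))), ?_⟩
      rw [Finset.map_union, List.toFinset_append, zl_toFinset le_rfl, gl_toFinset le_rfl]

end Pool.Agent.H235R3.WC
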