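import Mathlib

/-!
# Potentials
-/

namespace Pool.Agent.H235R3.WC

variable {α : Type*} [DecidableEq α]

/-- The weight of the set `e` in the position `(W, C)`. -/
def wt (W C e : Finset α) : ℚ := if Disjoint e C then (1 / 2) ^ (e \ W).card else 0

theorem wt_nonneg (W C e : Finset α) : 0 ≤ wt W C e := by
  unfold wt
  split_ifs <;> positivity

theorem wt_le_one (W C e : Finset α) : wt W C e ≤ 1 := by
  unfold wt
  split_ifs
  · exact pow_le_one₀ (by norm_num) (by norm_num)
  · norm_num

theorem wt_eq_zero {W C e : Finset α} {v : α} (h1 : v ∈ e) (h2 : v ∈ C) : wt W C e = 0 := by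
  unfold wt
  rw [if_neg]
  rw [Finset.disjoint_left]
  push Not
  exact ⟨v, h1, h2⟩

theorem wt_eq_one {W C e : Finset α} (h : Disjoint W C) (h1 : e ⊆ W) : wt W C e = 1 := by
  unfold wt
  rw [if_pos (h.mono_left h1), Finset.sdiff_eq_empty_iff_subset.2 h1]
  simp

/-- The weight after Client took `p` and Waiter got `q`. -/
theorem wt_resp {W C e : Finset α} {p q : α} (hq : q ∉ W) :
    wt (insert q W) (insert p C) e =
      if p ∈ e then 0 else if q ∈ e then 2 * wt W C e else wt W C e := by
  by_cases h : p ∈ e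
  · rw [if_pos h]
    exact wt_eq_zero h (Finset.mem_insert_self _ _)
  rw [if_neg h]
  have hd : Disjoint e (insert p C) ↔ Disjoint e C := by
    rw [Finset.disjoint_insert_right]
    simp [h]
  by_cases h' : q ∈ e
  · rw [if_pos h']
    unfold wt
    by_cases hC : Disjoint e C
    · rw [if_pos (hd.2 hC), if_pos hC]
      have : e \ insert q W = (e \ W).erase q := by
        ext v
        simp only [Finset.mem_sdiff, Finset.mem_insert, not_or, Finset.mem_erase]
        tauto
      have hmem : q ∈ e \ W := Finset.mem_sdiff.2 ⟨h', hq⟩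
      have hc := Finset.card_erase_add_one hmem
      rw [this, ← hc, pow_succ]
      ring
    · rw [if_neg (fun h => hC (hd.1 h)), if_neg hC]
      ring
  · rw [if_neg h']
    unfold wt
    have : e \ insert q W = e \ W := by
      ext v
      simp only [Finset.mem_sdiff, Finset.mem_insert, not_or]
      constructor
      · rintro ⟨h1, _, h2⟩
        exact ⟨h1, h2⟩
      · rintro ⟨h1, h2⟩
        exact ⟨h1, fun h => h' (h ▸ h1), h2⟩
    rw [this]
    by_cases hC : Disjoint e C
    · rw [if_pos (hd.2 hC), if_pos hC]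
    · rw [if_neg (fun h => hC (hd.1 h)), if_neg hC]

theorem wt_union {W C e f : Finset α} (h : Disjoint e f) :
    wt W C (e ∪ f) = wt W C e * wt W C f := by
  unfold wt
  by_cases h1 : Disjoint e C
  · by_cases h2 : Disjoint f C
    · rw [if_pos (Finset.disjoint_union_left.2 ⟨h1, h2⟩), if_pos h1, if_pos h2, ← pow_add,
        Finset.union_sdiff_distrib, Finset.card_union_of_disjoint]
      exact h.mono Finset.sdiff_subset Finset.sdiff_subset
    · rw [if_neg (fun h => h2 (Finset.disjoint_union_left.1 h).2), if_neg h2, mul_zero]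
  · rw [if_neg (fun h => h1 (Finset.disjoint_union_left.1 h).1), if_neg h1, zero_mul]

theorem wt_resp_le_two {W C e : Finset α} {p q : α} (hq : q ∉ W) :
    wt (insert q W) (insert p C) e ≤ 2 * wt W C e := by
  rw [wt_resp hq]
  have := wt_nonneg W C e
  split_ifs <;> linarith

theorem wt_resp_add {W C e : Finset α} {p q : α} (hp : p ∉ W) (hq : q ∉ W) :
    wt (insert q W) (insert p C) e + wt (insert p W) (insert q C) e ≤ 2 * wt W C e := by
  rw [wt_resp hq, wt_resp hp]
  have := wt_nonneg W C e
  split_ifs <;> linarith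

/-- The potential of an indexed family of sets. -/
def pot {ι : Type*} (s : Finset ι) (f : ι → Finset α) (W C : Finset α) : ℚ :=
  ∑ i ∈ s, wt W C (f i)

/-- The part of the potential which belongs to the sets containing `v`. -/
def dg {ι : Type*} (s : Finset ι) (f : ι → Finset α) (W C : Finset α) (v : α) : ℚ :=
  ∑ i ∈ s, if v ∈ f i then wt W C (f i) else 0

section

variable {ι : Type*} {s : Finset ι} {f : ι → Finset α} {W C : Finset α} {p q : α}

theorem pot_nonneg : 0 ≤ pot s f W C := Finset.sum_nonneg fun _ _ => wt_nonneg _ _ _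

theorem dg_nonneg (v : α) : 0 ≤ dg s f W C v :=
  Finset.sum_nonneg fun _ _ => by split_ifs <;> [exact wt_nonneg _ _ _; exact le_rfl]

theorem dg_le_pot (v : α) : dg s f W C v ≤ pot s f W C :=
  Finset.sum_le_sum fun _ _ => by split_ifs <;> [exact le_rfl; exact wt_nonneg _ _ _]

theorem pot_le_two (hq : q ∉ W) :
    pot s f (insert q W) (insert p C) ≤ 2 * pot s f W C := by
  unfold pot
  rw [Finset.mul_sum]
  exact Finset.sum_le_sum fun i _ => wt_resp_le_two hq

theorem pot_greedy (hp : p ∉ W) (hq : q ∉ W) :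
    pot s f (insert q W) (insert p C) ≤ pot s f W C ∨
      pot s f (insert p W) (insert q C) ≤ pot s f W C := by
  have : pot s f (insert q W) (insert p C) + pot s f (insert p W) (insert q C) ≤
      2 * pot s f W C := by
    unfold pot
    rw [Finset.mul_sum, ← Finset.sum_add_distrib]
    exact Finset.sum_le_sum fun i _ => wt_resp_add hp hq
  by_contra hcon
  push Not at hcon
  linarith [hcon.1, hcon.2]

theorem pot_resp_le (hq : q ∉ W) :
    pot s f (insert q W) (insert p C) ≤ pot s f W C - dg s f W C p + dg s f W C q := by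
  unfold pot dg
  rw [← Finset.sum_sub_distrib, ← Finset.sum_add_distrib]
  refine Finset.sum_le_sum fun i _ => ?_
  rw [wt_resp hq]
  have := wt_nonneg W C (f i)
  split_ifs <;> linarith

/-- Nothing changes if no set of positive weight contains `p` or `q`. -/
theorem pot_resp_eq (hq : q ∉ W)
    (h1 : ∀ i ∈ s, p ∈ f i → wt W C (f i) = 0) (h2 : ∀ i ∈ s, q ∈ f i → wt W C (f i) = 0) :
    pot s f (insert q W) (insert p C) = pot s f W C := by
  unfold pot
  refine Finset.sum_congr rfl fun i hi => ?_
  rw [wt_resp hq]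
  split_ifs with h h'
  · rw [h1 i hi h]
  · rw [h2 i hi h']
    ring
  · rfl

theorem dg_eq_zero {v : α} (h : ∀ i ∈ s, v ∈ f i → wt W C (f i) = 0) : dg s f W C v = 0 := by
  unfold dg
  refine Finset.sum_eq_zero fun i hi => ?_
  split_ifs with h'
  · exact h i hi h'
  · rfl

theorem one_le_pot (h : Disjoint W C) {i : ι} (hi : i ∈ s) (hf : f i ⊆ W) : 1 ≤ pot s f W C := by
  unfold pot
  have h1 := Finset.single_le_sum (f := fun i => wt W C (f i)) (fun j _ => wt_nonneg W C (f j)) hi
  rw [wt_eq_one h hf] at h1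
  exact h1

end

/-! ### Sums of powers of two -/

theorem sum_half (r : ℕ) : ∑ i ∈ Finset.range r, (1 / 2 : ℚ) ^ (i + 1) = 1 - (1 / 2) ^ r := by
  induction r with
  | zero => simp
  | succ r ih =>
    rw [Finset.sum_range_succ, ih, pow_succ]
    ring

/-- The potential of a ladder. -/
theorem sum_ladder (f : ℕ → ℚ) (m r : ℕ) (hr : r ≤ m) (h1 : ∀ i < r, f i = (1 / 2) ^ (i + 1))
    (h2 : f r = (1 / 2) ^ r) (h3 : ∀ i, r < i → i ≤ m → f i = 0) :
    ∑ i ∈ Finset.range (m + 1), f i = 1 := by
  rw [← Finset.sum_subset (Finset.range_subset_range.2 (Nat.succ_le_succ hr))]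
  · rw [Finset.sum_range_succ, h2, Finset.sum_congr rfl fun i hi => h1 i (Finset.mem_range.1 hi),
      sum_half]
    ring
  · intro i hi hi'
    rw [Finset.mem_range] at hi hi'
    exact h3 i (by omega) (by omega)

/-- The part above the rung `k`. -/
theorem sum_ladder_tail (f : ℕ → ℚ) (m r k : ℕ) (hr : r ≤ m)
    (h1 : ∀ i < r, f i = (1 / 2) ^ (i + 1)) (h2 : f r = (1 / 2) ^ r)
    (h3 : ∀ i, r < i → i ≤ m → f i = 0) (hk : k < r) :
    ∑ i ∈ Finset.range (m + 1), (if k < i then f i else 0) = (1 / 2) ^ (k + 1) := by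
  have h := sum_ladder f m r hr h1 h2 h3
  have hsplit : ∑ i ∈ Finset.range (m + 1), f i =
      ∑ i ∈ Finset.range (m + 1), (if k < i then f i else 0) +
        ∑ i ∈ Finset.range (m + 1), (if k < i then 0 else f i) := by
    rw [← Finset.sum_add_distrib]
    refine Finset.sum_congr rfl fun i _ => ?_
    split_ifs <;> ring
  have hlow : ∑ i ∈ Finset.range (m + 1), (if k < i then 0 else f i) = 1 - (1 / 2) ^ (k + 1) := by
    rw [← Finset.sum_subset (Finset.range_subset_range.2 (show k + 1 ≤ m + 1 by omega))]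
    · rw [← sum_half (k + 1)]
      refine Finset.sum_congr rfl fun i hi => ?_
      rw [Finset.mem_range] at hi
      rw [if_neg (by omega), h1 i (by omega)]
    · intro i _ hi'
      rw [Finset.mem_range] at hi'
      rw [if_pos (by omega)]
  linarith

end Pool.Agent.H235R3.WC
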