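import Pool.Agent.H235R3.WC.Graph
import Pool.Agent.H235R3.WC.Pot

/-!
# Ladders
-/

namespace Pool.Agent.H235R3.WC

open Vx

/-- The vertex `v` is unclaimed. -/
def Unc (W C : Finset Vx) (v : Vx) : Prop := v ∉ W ∧ v ∉ C

/-- The sets of the ladder with the rungs `c`. -/
def rung (m : ℕ) (c : ℕ → Vx) (k : ℕ) : Finset Vx := Gs k ∪ (if k < m then {c k} else ∅)

/-- Below `r` the ladder is intact, and it is cut off at `r`. -/
structure LS (m : ℕ) (c : ℕ → Vx) (r : ℕ) (W C : Finset Vx) : Prop where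
  le : r ≤ m
  unc : ∀ k < r, Unc W C (g k) ∧ Unc W C (c k)
  brk : r < m → c r ∈ W ∧ g r ∈ C

/-- `v` belongs to the intact part of the ladder. -/
def LA (c : ℕ → Vx) (r : ℕ) (v : Vx) : Prop := ∃ k < r, v = g k ∨ v = c k

/-- The potential of the ladder. -/
def lam (m : ℕ) (c : ℕ → Vx) (W C : Finset Vx) : ℚ := pot (Finset.range (m + 1)) (rung m c) W C

variable {m r : ℕ} {c : ℕ → Vx} {W C : Finset Vx} {p q : Vx}

theorem mem_rung {k : ℕ} {v : Vx} : v ∈ rung m c k ↔ (∃ l < k, v = g l) ∨ (k < m ∧ v = c k) := by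
  unfold rung
  rw [Finset.mem_union, mem_Gs]
  split_ifs with h
  · rw [Finset.mem_singleton]
    constructor
    · rintro (⟨l, hl, rfl⟩ | rfl)
      · exact Or.inl ⟨l, hl, rfl⟩
      · exact Or.inr ⟨h, rfl⟩
    · rintro (⟨l, hl, rfl⟩ | ⟨_, rfl⟩)
      · exact Or.inl ⟨l, hl, rfl⟩
      · exact Or.inr rfl
  · simp only [Finset.notMem_empty, or_false]
    constructor
    · rintro ⟨l, hl, rfl⟩
      exact Or.inl ⟨l, hl, rfl⟩
    · rintro (⟨l, hl, rfl⟩ | ⟨h', _⟩)
      · exact ⟨l, hl, rfl⟩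
      · exact absurd h' h

theorem card_Gs (k : ℕ) : (Gs k).card = k := by
  unfold Gs
  rw [Finset.card_image_of_injective _ (fun a b h => by simpa using h), Finset.card_range]

theorem wt_unc {e : Finset Vx} (h : ∀ v ∈ e, Unc W C v) : wt W C e = (1 / 2) ^ e.card := by
  unfold wt
  rw [if_pos (Finset.disjoint_left.2 fun v hv => (h v hv).2)]
  congr 2
  ext v
  rw [Finset.mem_sdiff]
  exact ⟨fun h => h.1, fun hv => ⟨hv, (h v hv).1⟩⟩

namespace LS

theorem uniq {r' : ℕ} (h : LS m c r W C) (h' : LS m c r' W C) : r = r' := by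
  rcases lt_trichotomy r r' with hlt | heq | hgt
  · exact absurd (h.brk (lt_of_lt_of_le hlt h'.le)).2 (h'.unc r hlt).1.2
  · exact heq
  · exact absurd (h'.brk (lt_of_lt_of_le hgt h.le)).2 (h.unc r' hgt).1.2

theorem wt_lt (hcg : ∀ k l, c k ≠ g l) (h : LS m c r W C) {k : ℕ} (hk : k < r) :
    wt W C (rung m c k) = (1 / 2) ^ (k + 1) := by
  rw [wt_unc]
  · congr 1
    unfold rung
    rw [if_pos (lt_of_lt_of_le hk h.le), Finset.card_union_of_disjoint, card_Gs,
      Finset.card_singleton]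
    rw [Finset.disjoint_singleton_right, mem_Gs]
    rintro ⟨l, _, hl⟩
    exact hcg k l hl.symm
  · intro v hv
    rw [mem_rung] at hv
    rcases hv with ⟨l, hl, rfl⟩ | ⟨_, rfl⟩
    · exact (h.unc l (by omega)).1
    · exact (h.unc k hk).2

theorem wt_eq (hcg : ∀ k l, c k ≠ g l) (hd : Disjoint W C) (h : LS m c r W C) :
    wt W C (rung m c r) = (1 / 2) ^ r := by
  have hG : wt W C (Gs r) = (1 / 2) ^ r := by
    rw [wt_unc, card_Gs]
    intro v hv
    rw [mem_Gs] at hv
    obtain ⟨l, hl, rfl⟩ := hv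
    exact (h.unc l hl).1
  unfold rung
  split_ifs with hr
  · rw [wt_union, hG, wt_eq_one hd, mul_one]
    · rw [Finset.singleton_subset_iff]
      exact (h.brk hr).1
    · rw [Finset.disjoint_singleton_right, mem_Gs]
      rintro ⟨l, _, hl⟩
      exact hcg r l hl.symm
  · rw [Finset.union_empty, hG]

theorem wt_gt (h : LS m c r W C) {k : ℕ} (hk : r < k) (hkm : k ≤ m) :
    wt W C (rung m c k) = 0 :=
  wt_eq_zero (v := g r) (mem_rung.2 (Or.inl ⟨r, hk, rfl⟩)) (h.brk (by omega)).2

theorem lam_eq (hcg : ∀ k l, c k ≠ g l) (hd : Disjoint W C) (h : LS m c r W C) :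
    lam m c W C = 1 :=
  sum_ladder _ m r h.le (fun _ hi => h.wt_lt hcg hi) (h.wt_eq hcg hd)
    (fun _ hi hi' => h.wt_gt hi hi')

theorem dg_g (hcg : ∀ k l, c k ≠ g l) (hd : Disjoint W C) (h : LS m c r W C) {k : ℕ}
    (hk : k < r) : dg (Finset.range (m + 1)) (rung m c) W C (g k) = (1 / 2) ^ (k + 1) := by
  rw [← sum_ladder_tail (fun i => wt W C (rung m c i)) m r k h.le (fun _ hi => h.wt_lt hcg hi)
    (h.wt_eq hcg hd) (fun _ hi hi' => h.wt_gt hi hi') hk]
  unfold dg
  refine Finset.sum_congr rfl fun i _ => ?_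
  have : g k ∈ rung m c i ↔ k < i := by
    rw [mem_rung]
    constructor
    · rintro (⟨l, hl, hkl⟩ | ⟨_, hl⟩)
      · rw [Vx.g.injEq] at hkl
        omega
      · exact absurd hl.symm (hcg i k)
    · intro hki
      exact Or.inl ⟨k, hki, rfl⟩
  by_cases hki : k < i
  · rw [if_pos (this.2 hki), if_pos hki]
  · rw [if_neg (fun h => hki (this.1 h)), if_neg hki]

theorem dg_c (hcg : ∀ k l, c k ≠ g l) (hci : ∀ k l, c k = c l → k = l) (h : LS m c r W C) {k : ℕ}
    (hk : k < r) : dg (Finset.range (m + 1)) (rung m c) W C (c k) = (1 / 2) ^ (k + 1) := by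
  unfold dg
  have hle := h.le
  rw [Finset.sum_eq_single k]
  · rw [if_pos (mem_rung.2 (Or.inr ⟨by omega, rfl⟩)), h.wt_lt hcg hk]
  · intro i _ hik
    rw [if_neg]
    rw [mem_rung]
    rintro (⟨l, _, hl⟩ | ⟨_, hl⟩)
    · exact hcg k l hl
    · exact hik (hci _ _ hl).symm
  · intro hk'
    rw [Finset.mem_range] at hk'
    omega

theorem dg_other (h : LS m c r W C) {v : Vx} (hv : Unc W C v) (hA : ¬ LA c r v) :
    dg (Finset.range (m + 1)) (rung m c) W C v = 0 := by
  refine dg_eq_zero fun i hi hvi => ?_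
  rw [Finset.mem_range] at hi
  rw [mem_rung] at hvi
  rcases hvi with ⟨l, hl, rfl⟩ | ⟨him, rfl⟩
  · have : r ≤ l := by
      by_contra hcon
      exact hA ⟨l, by omega, Or.inl rfl⟩
    exact h.wt_gt (by omega) (by omega)
  · have : r ≤ i := by
      by_contra hcon
      exact hA ⟨i, by omega, Or.inr rfl⟩
    rcases eq_or_lt_of_le this with heq | hlt
    · exact absurd (heq ▸ (h.brk (by omega)).1) hv.1
    · exact h.wt_gt hlt (by omega)

theorem dg_le (hcg : ∀ k l, c k ≠ g l) (hci : ∀ k l, c k = c l → k = l) (hd : Disjoint W C)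
    (h : LS m c r W C) {v : Vx} (hv : Unc W C v) :
    dg (Finset.range (m + 1)) (rung m c) W C v ≤ 1 / 2 := by
  by_cases hA : LA c r v
  · have hpow : ∀ k : ℕ, (1 / 2 : ℚ) ^ (k + 1) ≤ 1 / 2 := by
      intro k
      rw [pow_succ]
      have : (1 / 2 : ℚ) ^ k ≤ 1 := pow_le_one₀ (by norm_num) (by norm_num)
      linarith
    obtain ⟨k, hk, rfl | rfl⟩ := hA
    · rw [h.dg_g hcg hd hk]
      exact hpow k
    · rw [h.dg_c hcg hci hk]
      exact hpow k
  · rw [h.dg_other hv hA]
    norm_num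

/-- The potential after a move. -/
theorem lam_resp (hcg : ∀ k l, c k ≠ g l) (hci : ∀ k l, c k = c l → k = l) (hd : Disjoint W C)
    (h : LS m c r W C) (hq : Unc W C q) :
    lam m c (insert q W) (insert p C) ≤ 3 / 2 := by
  have h1 := pot_resp_le (s := Finset.range (m + 1)) (f := rung m c) (C := C) (p := p) hq.1
  have h2 := h.lam_eq hcg hd
  have h3 := h.dg_le hcg hci hd hq
  have h4 := dg_nonneg (s := Finset.range (m + 1)) (f := rung m c) (W := W) (C := C) p
  unfold lam at h2 ⊢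
  linarith

/-- The possible outcomes when two vertices are offered. -/
theorem resp (hcg : ∀ k l, c k ≠ g l) (hci : ∀ k l, c k = c l → k = l) (hd : Disjoint W C)
    (h : LS m c r W C) (hp : Unc W C p) (hq : Unc W C q) (hpq : p ≠ q) :
    (¬ LA c r p ∧ ¬ LA c r q) ∨
      (∃ k < r, (p = g k ∧ q = c k) ∨ (p = c k ∧ q = g k)) ∨
      lam m c (insert q W) (insert p C) < 1 ∨ lam m c (insert p W) (insert q C) < 1 := by
  have h1 := pot_resp_le (s := Finset.range (m + 1)) (f := rung m c) (C := C) (p := p) hq.1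
  have h2 := pot_resp_le (s := Finset.range (m + 1)) (f := rung m c) (C := C) (p := q) hp.1
  have h3 := h.lam_eq hcg hd
  unfold lam at h3 ⊢
  rcases lt_trichotomy (dg (Finset.range (m + 1)) (rung m c) W C p)
    (dg (Finset.range (m + 1)) (rung m c) W C q) with hlt | heq | hgt
  · right; right; right
    linarith
  · by_cases hA : LA c r p
    · obtain ⟨k, hk, hpk⟩ := hA
      have hpd : dg (Finset.range (m + 1)) (rung m c) W C p = (1 / 2) ^ (k + 1) := by
        rcases hpk with rfl | rfl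
        · exact h.dg_g hcg hd hk
        · exact h.dg_c hcg hci hk
      by_cases hB : LA c r q
      · obtain ⟨l, hl, hql⟩ := hB
        have hqd : dg (Finset.range (m + 1)) (rung m c) W C q = (1 / 2) ^ (l + 1) := by
          rcases hql with rfl | rfl
          · exact h.dg_g hcg hd hl
          · exact h.dg_c hcg hci hl
        have hkl : k = l := by
          rw [hpd, hqd] at heq
          have := pow_right_injective₀ (a := (1 / 2 : ℚ)) (by norm_num) (by norm_num) heq
          simpa using this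
        subst hkl
        right; left
        refine ⟨k, hk, ?_⟩
        rcases hpk with rfl | rfl <;> rcases hql with rfl | rfl
        · exact absurd rfl hpq
        · exact Or.inl ⟨rfl, rfl⟩
        · exact Or.inr ⟨rfl, rfl⟩
        · exact absurd rfl hpq
      · exfalso
        rw [hpd, h.dg_other hq hB] at heq
        have : (0 : ℚ) < (1 / 2) ^ (k + 1) := by positivity
        linarith
    · by_cases hB : LA c r q
      · obtain ⟨l, hl, hql⟩ := hB
        have hqd : dg (Finset.range (m + 1)) (rung m c) W C q = (1 / 2) ^ (l + 1) := by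
          rcases hql with rfl | rfl
          · exact h.dg_g hcg hd hl
          · exact h.dg_c hcg hci hl
        exfalso
        rw [hqd, h.dg_other hp hA] at heq
        have : (0 : ℚ) < (1 / 2) ^ (l + 1) := by positivity
        linarith
      · exact Or.inl ⟨hA, hB⟩
  · right; right; left
    linarith

/-- Claiming other vertices does not change the ladder. -/
theorem neutral (h : LS m c r W C) (hp : ¬ LA c r p) (hq : ¬ LA c r q) :
    LS m c r (insert q W) (insert p C) := by
  refine ⟨h.le, fun k hk => ⟨⟨?_, ?_⟩, ⟨?_, ?_⟩⟩, fun hr => ⟨?_, ?_⟩⟩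
  · rw [Finset.mem_insert, not_or]
    exact ⟨fun e => hq ⟨k, hk, Or.inl e.symm⟩, (h.unc k hk).1.1⟩
  · rw [Finset.mem_insert, not_or]
    exact ⟨fun e => hp ⟨k, hk, Or.inl e.symm⟩, (h.unc k hk).1.2⟩
  · rw [Finset.mem_insert, not_or]
    exact ⟨fun e => hq ⟨k, hk, Or.inr e.symm⟩, (h.unc k hk).2.1⟩
  · rw [Finset.mem_insert, not_or]
    exact ⟨fun e => hp ⟨k, hk, Or.inr e.symm⟩, (h.unc k hk).2.2⟩
  · exact Finset.mem_insert_of_mem (h.brk hr).1
  · exact Finset.mem_insert_of_mem (h.brk hr).2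

/-- Client takes `g k` and Waiter gets `c k`. -/
theorem cut (hcg : ∀ k l, c k ≠ g l) (hci : ∀ k l, c k = c l → k = l) (h : LS m c r W C) {k : ℕ}
    (hk : k < r) : LS m c k (insert (c k) W) (insert (g k) C) := by
  have hle := h.le
  refine ⟨by omega, fun l hl => ⟨⟨?_, ?_⟩, ⟨?_, ?_⟩⟩, fun _ => ⟨?_, ?_⟩⟩
  · rw [Finset.mem_insert, not_or]
    exact ⟨(hcg k l).symm, (h.unc l (by omega)).1.1⟩
  · rw [Finset.mem_insert, not_or]
    exact ⟨fun e => by rw [Vx.g.injEq] at e; omega, (h.unc l (by omega)).1.2⟩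
  · rw [Finset.mem_insert, not_or]
    exact ⟨fun e => by have := hci _ _ e; omega, (h.unc l (by omega)).2.1⟩
  · rw [Finset.mem_insert, not_or]
    exact ⟨hcg l k, (h.unc l (by omega)).2.2⟩
  · exact Finset.mem_insert_self _ _
  · exact Finset.mem_insert_self _ _

end LS

end Pool.Agent.H235R3.WC
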