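import Pool.Agent.H235R3.WC.Ladder

/-!
# One level
-/

namespace Pool.Agent.H235R3.WC

open Vx

theorem b_g (k l : ℕ) : b k ≠ g l := by simp
theorem b_inj (k l : ℕ) (h : b k = b l) : k = l := by simpa using h
theorem h_g (k l : ℕ) : h k ≠ g l := by simp
theorem h_inj (k l : ℕ) (e : h k = h l) : k = l := by simpa using e

/-- The weight of a single vertex. -/
def sw (W C : Finset Vx) (v : Vx) : ℚ := if v ∈ C then 0 else if v ∈ W then 1 else 1 / 2

theorem wt_singleton (W C : Finset Vx) (v : Vx) : wt W C {v} = sw W C v := by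
  unfold wt sw
  by_cases h : v ∈ C
  · rw [if_neg (by simpa using h), if_pos h]
  · rw [if_pos (by simpa using h), if_neg h]
    by_cases h' : v ∈ W
    · rw [if_pos h', Finset.sdiff_eq_empty_iff_subset.2 (by simpa using h')]
      simp
    · rw [if_neg h', Finset.sdiff_eq_self_of_disjoint (by simpa using h')]
      simp

theorem wt_pair {W C : Finset Vx} {u v : Vx} (h : u ≠ v) :
    wt W C {u, v} = sw W C u * sw W C v := by
  rw [← wt_singleton, ← wt_singleton, ← wt_union (by simpa using h)]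
  rfl

/-- The sets of the level `j` (without the vertices `z_i`). -/
def fam (m j k : ℕ) : Finset Vx :=
  if k ≤ m then {y j, t j} ∪ rung m b k else {x j true, x j false}

/-- The potential of the level `j`. -/
def PP (m j : ℕ) (W C : Finset Vx) : ℚ := pot (Finset.range (m + 2)) (fam m j) W C

theorem PP_eq (m j : ℕ) (W C : Finset Vx) :
    PP m j W C = sw W C (x j true) * sw W C (x j false) +
      sw W C (y j) * sw W C (t j) * lam m b W C := by
  unfold PP pot
  rw [Finset.sum_range_succ, add_comm]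
  congr 1
  · unfold fam
    rw [if_neg (by omega), wt_pair (by simp)]
  · unfold lam pot
    rw [Finset.mul_sum]
    refine Finset.sum_congr rfl fun k hk => ?_
    rw [Finset.mem_range] at hk
    unfold fam
    rw [if_pos (by omega), wt_union, wt_pair (by simp)]
    rw [Finset.disjoint_left]
    intro v hv hv'
    rw [mem_rung] at hv'
    simp only [Finset.mem_insert, Finset.mem_singleton] at hv
    rcases hv with rfl | rfl <;> rcases hv' with ⟨l, _, hl⟩ | ⟨_, hl⟩ <;> simp at hl

/-- Nobody has touched the level. -/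
structure Fresh (m j : ℕ) (W C : Finset Vx) : Prop where
  ux : ∀ c, Unc W C (x j c)
  uy : Unc W C (y j)
  ut : Unc W C (t j)
  uz : Unc W C (z j)
  lad : ∃ r, LS m b r W C

/-- Waiter owns the vertex `x j (!c)`, and the vertex `x j c` is reserved for Client. -/
structure IntX (j : ℕ) (c : Bool) (W C : Finset Vx) : Prop where
  wx : x j (!c) ∈ W
  ux : Unc W C (x j c)
  cy : y j ∈ C
  uz : Unc W C (z j)

/-- Waiter owns the vertex `t j`, and the vertex `y j` is reserved for Client. -/
structure IntY (m j : ℕ) (W C : Finset Vx) : Prop where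
  cx : ∃ c, x j c ∈ C
  wt : t j ∈ W
  uy : Unc W C (y j)
  uz : Unc W C (z j)
  lad : ∃ r, LS m b r W C

/-- Waiter owns `z j`, and the level is finished. -/
structure Settled (j : ℕ) (W C : Finset Vx) : Prop where
  wz : z j ∈ W
  cy : y j ∈ C
  cx : ∃ c, x j c ∈ C

/-- The good states. -/
def Good (m j : ℕ) (W C : Finset Vx) : Prop :=
  Fresh m j W C ∨ (∃ c, IntX j c W C) ∨ IntY m j W C ∨ Settled j W C

/-- The states in which Waiter can neither get the vertex `z j` nor complete a set of the level. -/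
def Bad (m j : ℕ) (W C : Finset Vx) : Prop :=
  (Unc W C (z j) ∧ PP m j W C < 1 / 2) ∨ (z j ∈ C ∧ PP m j W C < 1)

/-- Waiter will not get the vertex `x j c`. -/
def Fals (j : ℕ) (c : Bool) (W C : Finset Vx) : Prop := x j c ∈ C ∨ IntX j c W C

/-- The vertices of a level. -/
def priv (j : ℕ) (v : Vx) : Prop := (∃ c, v = x j c) ∨ v = y j ∨ v = t j ∨ v = z j

/-- What is falsified remains so. -/
def FP (j : ℕ) (W C W' C' : Finset Vx) : Prop := ∀ c, Fals j c W C → Fals j c W' C'

/-- The moves that do not concern the level. -/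
structure Neu (m j : ℕ) (W C : Finset Vx) (p q : Vx) : Prop where
  g1 : Good m j (insert q W) (insert p C)
  g2 : Good m j (insert p W) (insert q C)
  f1 : FP j W C (insert q W) (insert p C)
  f2 : FP j W C (insert p W) (insert q C)
  fr : Fresh m j W C → ∀ r, LS m b r W C → ¬ LA b r p ∧ ¬ LA b r q

variable {m j : ℕ} {W C : Finset Vx} {p q : Vx}

theorem Good.not_edge (hd : Disjoint W C) (h : Good m j W C) :
    ¬ (x j true ∈ W ∧ x j false ∈ W) ∧ y j ∉ W := by
  have hd' : ∀ v, v ∈ W → v ∉ C := fun v h1 h2 => Finset.disjoint_left.1 hd h1 h2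
  have hcx : (∃ c, x j c ∈ C) → ¬ (x j true ∈ W ∧ x j false ∈ W) := by
    rintro ⟨c, hc⟩ ⟨h1, h2⟩
    cases c
    · exact hd' _ h2 hc
    · exact hd' _ h1 hc
  rcases h with h | ⟨c, h⟩ | h | h
  · exact ⟨fun h' => (h.ux true).1 h'.1, h.uy.1⟩
  · refine ⟨fun h' => ?_, fun h' => hd' _ h' h.cy⟩
    have := h.ux.1
    cases c
    · exact this h'.2
    · exact this h'.1
  · exact ⟨hcx h.cx, h.uy.1⟩
  · exact ⟨hcx h.cx, fun h' => hd' _ h' h.cy⟩

/-- Moves in another level. -/
theorem Good.other {i : ℕ} (hij : i ≠ j) (hp : priv j p) (hq : priv j q) (h : Good m i W C) :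
    Good m i (insert q W) (insert p C) ∧ FP i W C (insert q W) (insert p C) := by
  have hne : ∀ {u v : Vx}, priv i u → priv j v → u ≠ v := by
    rintro u v (⟨c, rfl⟩ | rfl | rfl | rfl) (⟨c', rfl⟩ | rfl | rfl | rfl) <;> simp [hij]
  have hU : ∀ {u : Vx}, priv i u → Unc W C u → Unc (insert q W) (insert p C) u := by
    intro u hu h
    refine ⟨?_, ?_⟩
    · rw [Finset.mem_insert, not_or]
      exact ⟨hne hu hq, h.1⟩
    · rw [Finset.mem_insert, not_or]
      exact ⟨hne hu hp, h.2⟩
  have hL : ∀ {u : Vx}, priv j u → ∀ r, ¬ LA b r u := by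
    rintro u hu r ⟨k, _, rfl | rfl⟩ <;> simp [priv] at hu
  have hLad : (∃ r, LS m b r W C) → ∃ r, LS m b r (insert q W) (insert p C) := by
    rintro ⟨r, hr⟩
    exact ⟨r, hr.neutral (hL hp r) (hL hq r)⟩
  have px : ∀ c, priv i (x i c) := fun c => Or.inl ⟨c, rfl⟩
  have py : priv i (y i) := Or.inr (Or.inl rfl)
  have pt : priv i (t i) := Or.inr (Or.inr (Or.inl rfl))
  have pz : priv i (z i) := Or.inr (Or.inr (Or.inr rfl))
  have hIX : ∀ c, IntX i c W C → IntX i c (insert q W) (insert p C) := fun c h =>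
    ⟨Finset.mem_insert_of_mem h.wx, hU (px _) h.ux, Finset.mem_insert_of_mem h.cy, hU pz h.uz⟩
  constructor
  · rcases h with h | ⟨c, h⟩ | h | h
    · exact Or.inl ⟨fun c => hU (px c) (h.ux c), hU py h.uy, hU pt h.ut, hU pz h.uz, hLad h.lad⟩
    · exact Or.inr (Or.inl ⟨c, hIX c h⟩)
    · refine Or.inr (Or.inr (Or.inl ⟨?_, Finset.mem_insert_of_mem h.wt, hU py h.uy, hU pz h.uz,
        hLad h.lad⟩))
      obtain ⟨c, hc⟩ := h.cx
      exact ⟨c, Finset.mem_insert_of_mem hc⟩
    · refine Or.inr (Or.inr (Or.inr ⟨Finset.mem_insert_of_mem h.wz,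
        Finset.mem_insert_of_mem h.cy, ?_⟩))
      obtain ⟨c, hc⟩ := h.cx
      exact ⟨c, Finset.mem_insert_of_mem hc⟩
  · rintro c (h | h)
    · exact Or.inl (Finset.mem_insert_of_mem h)
    · exact Or.inr (hIX c h)

/-- Client takes `g k` and Waiter gets `b k`. -/
theorem Good.tie {i r k : ℕ} (hr : LS m b r W C) (hk : k < r) (h : Good m i W C) :
    Good m i (insert (b k) W) (insert (g k) C) ∧
      FP i W C (insert (b k) W) (insert (g k) C) := by
  have hU : ∀ {u : Vx}, priv i u → Unc W C u → Unc (insert (b k) W) (insert (g k) C) u := by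
    intro u hu h
    refine ⟨?_, ?_⟩
    · rw [Finset.mem_insert, not_or]
      refine ⟨?_, h.1⟩
      rintro rfl
      simp [priv] at hu
    · rw [Finset.mem_insert, not_or]
      refine ⟨?_, h.2⟩
      rintro rfl
      simp [priv] at hu
  have hLad : ∃ r, LS m b r (insert (b k) W) (insert (g k) C) := ⟨k, hr.cut b_g b_inj hk⟩
  have px : ∀ c, priv i (x i c) := fun c => Or.inl ⟨c, rfl⟩
  have py : priv i (y i) := Or.inr (Or.inl rfl)
  have pt : priv i (t i) := Or.inr (Or.inr (Or.inl rfl))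
  have pz : priv i (z i) := Or.inr (Or.inr (Or.inr rfl))
  have hIX : ∀ c, IntX i c W C → IntX i c (insert (b k) W) (insert (g k) C) := fun c h =>
    ⟨Finset.mem_insert_of_mem h.wx, hU (px _) h.ux, Finset.mem_insert_of_mem h.cy, hU pz h.uz⟩
  constructor
  · rcases h with h | ⟨c, h⟩ | h | h
    · exact Or.inl ⟨fun c => hU (px c) (h.ux c), hU py h.uy, hU pt h.ut, hU pz h.uz, hLad⟩
    · exact Or.inr (Or.inl ⟨c, hIX c h⟩)
    · refine Or.inr (Or.inr (Or.inl ⟨?_, Finset.mem_insert_of_mem h.wt, hU py h.uy, hU pz h.uz,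
        hLad⟩))
      obtain ⟨c, hc⟩ := h.cx
      exact ⟨c, Finset.mem_insert_of_mem hc⟩
    · refine Or.inr (Or.inr (Or.inr ⟨Finset.mem_insert_of_mem h.wz,
        Finset.mem_insert_of_mem h.cy, ?_⟩))
      obtain ⟨c, hc⟩ := h.cx
      exact ⟨c, Finset.mem_insert_of_mem hc⟩
  · rintro c (h | h)
    · exact Or.inl (Finset.mem_insert_of_mem h)
    · exact Or.inr (hIX c h)

end Pool.Agent.H235R3.WC
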