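import Pool.Agent.H235R3.WC.Level

/-!
# The moves in one level
-/

namespace Pool.Agent.H235R3.WC

open Vx

variable {m j : ℕ} {W C : Finset Vx} {p q v : Vx}

theorem sw_unc (h : Unc W C v) : sw W C v = 1 / 2 := by
  unfold sw
  rw [if_neg h.2, if_neg h.1]

theorem sw_take (W' : Finset Vx) : sw W' (insert p C) p = 0 := by
  unfold sw
  rw [if_pos (Finset.mem_insert_self _ _)]

theorem sw_get (hpq : p ≠ q) (hq : Unc W C q) : sw (insert q W) (insert p C) q = 1 := by
  unfold sw
  rw [if_neg, if_pos (Finset.mem_insert_self _ _)]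
  rw [Finset.mem_insert, not_or]
  exact ⟨hpq.symm, hq.2⟩

theorem sw_else (h1 : v ≠ p) (h2 : v ≠ q) : sw (insert q W) (insert p C) v = sw W C v := by
  unfold sw
  simp only [Finset.mem_insert, h1, h2, false_or]

theorem sw_C (h : v ∈ C) : sw W C v = 0 := by
  unfold sw
  rw [if_pos h]

theorem sw_W (hd : Disjoint W C) (h : v ∈ W) : sw W C v = 1 := by
  unfold sw
  rw [if_neg (Finset.disjoint_left.1 hd h), if_pos h]

theorem sw_nonneg : 0 ≤ sw W C v := by
  unfold sw
  split_ifs <;> norm_num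

theorem sw_le_one : sw W C v ≤ 1 := by
  unfold sw
  split_ifs <;> norm_num

theorem lam_nonneg (c : ℕ → Vx) : 0 ≤ lam m c W C := pot_nonneg

theorem Unc.other (h : Unc W C v) (h1 : v ≠ p) (h2 : v ≠ q) :
    Unc (insert q W) (insert p C) v := by
  refine ⟨?_, ?_⟩
  · rw [Finset.mem_insert, not_or]
    exact ⟨h2, h.1⟩
  · rw [Finset.mem_insert, not_or]
    exact ⟨h1, h.2⟩

/-- If Waiter gets a vertex that is not in the ladder then the ladder does not become better. -/
theorem lam_le_one (hd : Disjoint W C) {r : ℕ} (h : LS m b r W C) (hq : Unc W C q)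
    (hA : ¬ LA b r q) : lam m b (insert q W) (insert p C) ≤ 1 := by
  have h1 := pot_resp_le (s := Finset.range (m + 1)) (f := rung m b) (C := C) (p := p) hq.1
  have h2 := h.lam_eq b_g hd
  have h3 := h.dg_other hq hA
  have h4 := dg_nonneg (s := Finset.range (m + 1)) (f := rung m b) (W := W) (C := C) p
  unfold lam at h2 ⊢
  linarith

theorem priv_not_LA {r : ℕ} (h : priv j v) : ¬ LA b r v := by
  rintro ⟨k, _, rfl | rfl⟩ <;> simp [priv] at h

section Fresh

/-- Waiter offers `z j` on a fresh level. -/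
theorem Fresh.offer_z (hd : Disjoint W C) (h : Fresh m j W C) (hq : Unc W C q) (hpq : z j ≠ q) :
    Bad m j (insert q W) (insert (z j) C) := by
  right
  refine ⟨Finset.mem_insert_self _ _, ?_⟩
  obtain ⟨r, hr⟩ := h.lad
  have hl0 := lam_nonneg (m := m) (W := insert q W) (C := insert (z j) C) b
  rw [PP_eq]
  have e1 := sw_unc (h.ux true)
  have e2 := sw_unc (h.ux false)
  have e3 := sw_unc h.uy
  have e4 := sw_unc h.ut
  by_cases hqp : priv j q
  · have hl := lam_le_one (p := z j) hd hr hq (priv_not_LA hqp)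
    rcases hqp with ⟨c, rfl⟩ | rfl | rfl | rfl
    · have e5 : sw (insert (x j c) W) (insert (z j) C) (x j c) = 1 := sw_get (by simp) hq
      cases c
      · rw [e5, sw_else (by simp) (by simp), sw_else (by simp) (by simp),
          sw_else (by simp) (by simp), e1, e3, e4]
        linarith
      · rw [e5, sw_else (by simp) (by simp), sw_else (by simp) (by simp),
          sw_else (by simp) (by simp), e2, e3, e4]
        linarith
    · have e5 : sw (insert (y j) W) (insert (z j) C) (y j) = 1 := sw_get (by simp) hq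
      rw [e5, sw_else (by simp) (by simp), sw_else (by simp) (by simp),
        sw_else (by simp) (by simp), e1, e2, e4]
      linarith
    · have e5 : sw (insert (t j) W) (insert (z j) C) (t j) = 1 := sw_get (by simp) hq
      rw [e5, sw_else (by simp) (by simp), sw_else (by simp) (by simp),
        sw_else (by simp) (by simp), e1, e2, e3]
      linarith
    · exact absurd rfl hpq
  · have hl := hr.lam_resp (p := z j) b_g b_inj hd hq
    have n1 : ∀ c, x j c ≠ q := fun c e => hqp (Or.inl ⟨c, e.symm⟩)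
    have n2 : y j ≠ q := fun e => hqp (Or.inr (Or.inl e.symm))
    have n3 : t j ≠ q := fun e => hqp (Or.inr (Or.inr (Or.inl e.symm)))
    rw [sw_else (by simp) (n1 _), sw_else (by simp) (n1 _), sw_else (by simp) n2,
      sw_else (by simp) n3, e1, e2, e3, e4]
    linarith

/-- Waiter offers `x j c` on a fresh level. -/
theorem Fresh.offer_x (hd : Disjoint W C) (h : Fresh m j W C) (c : Bool) (hq : Unc W C q)
    (hpq : x j c ≠ q) (hqz : z j ≠ q) :
    Bad m j (insert q W) (insert (x j c) C) ∨ (priv j q ∧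
      ((Good m j (insert q W) (insert (x j c) C) ∧
        FP j W C (insert q W) (insert (x j c) C)) ∨
       (Good m j (insert (x j c) W) (insert q C) ∧
        FP j W C (insert (x j c) W) (insert q C)))) := by
  obtain ⟨r, hr⟩ := h.lad
  have hFP : ∀ W' C', FP j W C W' C' := by
    rintro W' C' c' (h' | h')
    · exact absurd h' (h.ux c').2
    · exact absurd h'.cy h.uy.2
  by_cases hqy : q = y j
  · subst hqy
    right
    refine ⟨Or.inr (Or.inl rfl), Or.inr ⟨Or.inr (Or.inl ⟨!c, ?_⟩), hFP _ _⟩⟩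
    refine ⟨?_, ?_, Finset.mem_insert_self _ _, h.uz.other (by simp) (by simp)⟩
    · rw [Bool.not_not]
      exact Finset.mem_insert_self _ _
    · exact (h.ux _).other (by simp) (by simp)
  by_cases hqt : q = t j
  · subst hqt
    right
    refine ⟨Or.inr (Or.inr (Or.inl rfl)), Or.inl ⟨Or.inr (Or.inr (Or.inl ?_)), hFP _ _⟩⟩
    refine ⟨⟨c, Finset.mem_insert_self _ _⟩, Finset.mem_insert_self _ _,
      h.uy.other (by simp) (by simp), h.uz.other (by simp) (by simp), ⟨r, hr.neutral ?_ ?_⟩⟩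
    · exact priv_not_LA (Or.inl ⟨c, rfl⟩)
    · exact priv_not_LA (Or.inr (Or.inr (Or.inl rfl)))
  left
  left
  refine ⟨h.uz.other (by simp) hqz, ?_⟩
  have hl := hr.lam_resp (p := Vx.x j c) b_g b_inj hd hq
  have hl0 := lam_nonneg (m := m) (W := insert q W) (C := insert (Vx.x j c) C) b
  have e0 : sw (insert q W) (insert (Vx.x j c) C) (Vx.x j c) = 0 := sw_take _
  have e3 := sw_unc h.uy
  have e4 := sw_unc h.ut
  have hprod : sw (insert q W) (insert (Vx.x j c) C) (Vx.x j true) *
      sw (insert q W) (insert (Vx.x j c) C) (Vx.x j false) = 0 := by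
    cases c
    · rw [e0, mul_zero]
    · rw [e0, zero_mul]
  rw [PP_eq, hprod, sw_else (by simp) (fun e => hqy e.symm),
    sw_else (by simp) (fun e => hqt e.symm), e3, e4]
  linarith

/-- Waiter offers `y j` or `t j` on a fresh level. -/
theorem Fresh.offer_yt (h : Fresh m j W C) (hp : p = y j ∨ p = t j)
    (hqz : z j ≠ q) (hqx : ∀ c, Vx.x j c ≠ q) :
    Bad m j (insert q W) (insert p C) := by
  left
  have e1 := sw_unc (h.ux true)
  have e2 := sw_unc (h.ux false)
  have hpz : z j ≠ p := by rcases hp with rfl | rfl <;> simp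
  have hpx : ∀ c, Vx.x j c ≠ p := by intro c; rcases hp with rfl | rfl <;> simp
  refine ⟨h.uz.other hpz hqz, ?_⟩
  have e0 : sw (insert q W) (insert p C) p = 0 := sw_take _
  have hprod : sw (insert q W) (insert p C) (y j) * sw (insert q W) (insert p C) (t j) = 0 := by
    rcases hp with rfl | rfl
    · rw [e0, zero_mul]
    · rw [e0, mul_zero]
  rw [PP_eq, hprod, sw_else (hpx _) (hqx _), sw_else (hpx _) (hqx _), e1, e2]
  linarith

end Fresh

theorem Neu.symm (h : Neu m j W C p q) : Neu m j W C q p :=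
  ⟨h.g2, h.g1, h.f2, h.f1, fun hf r hr => (h.fr hf r hr).symm⟩

/-- The possible outcomes. -/
def Out (m j : ℕ) (W C : Finset Vx) (p q : Vx) : Prop :=
  Neu m j W C p q ∨ Bad m j (insert q W) (insert p C) ∨ Bad m j (insert p W) (insert q C) ∨
    (priv j p ∧ priv j q ∧
      ((Good m j (insert q W) (insert p C) ∧ FP j W C (insert q W) (insert p C)) ∨
       (Good m j (insert p W) (insert q C) ∧ FP j W C (insert p W) (insert q C)))) ∨
    (∃ r k, LS m b r W C ∧ k < r ∧ ((p = g k ∧ q = b k) ∨ (p = b k ∧ q = g k)))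

theorem Out.symm (h : Out m j W C p q) : Out m j W C q p := by
  rcases h with h | h | h | ⟨h1, h2, h3⟩ | ⟨r, k, h1, h2, h3⟩
  · exact Or.inl h.symm
  · exact Or.inr (Or.inr (Or.inl h))
  · exact Or.inr (Or.inl h)
  · exact Or.inr (Or.inr (Or.inr (Or.inl ⟨h2, h1, h3.symm⟩)))
  · exact Or.inr (Or.inr (Or.inr (Or.inr ⟨r, k, h1, h2, by tauto⟩)))

theorem Fresh.out (hd : Disjoint W C) (h : Fresh m j W C) (hp : Unc W C p) (hq : Unc W C q)
    (hpq : p ≠ q) : Out m j W C p q := by
  -- one of the vertices is private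
  have key : ∀ {p q : Vx}, Unc W C p → Unc W C q → p ≠ q → priv j p → Out m j W C p q := by
    intro p q hp hq hpq hpp
    by_cases hqz : q = z j
    · subst hqz
      exact Or.inr (Or.inr (Or.inl (h.offer_z hd hp hpq.symm)))
    by_cases hpz : p = z j
    · subst hpz
      exact Or.inr (Or.inl (h.offer_z hd hq hpq))
    have hx : ∀ {p q : Vx} (c : Bool), p = x j c → Unc W C q → p ≠ q → q ≠ z j →
        Out m j W C p q := by
      rintro p q c rfl hq hpq hqz
      rcases h.offer_x hd c hq hpq (fun e => hqz e.symm) with h' | ⟨h1, h2⟩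
      · exact Or.inr (Or.inl h')
      · exact Or.inr (Or.inr (Or.inr (Or.inl ⟨Or.inl ⟨c, rfl⟩, h1, h2⟩)))
    by_cases hqx : ∃ c, q = x j c
    · obtain ⟨c, hc⟩ := hqx
      exact (hx c hc hp hpq.symm hpz).symm
    have hqx' : ∀ c, x j c ≠ q := fun c e => hqx ⟨c, e.symm⟩
    rcases hpp with ⟨c, hc⟩ | hc | hc | hc
    · exact hx c hc hq hpq hqz
    · exact Or.inr (Or.inl (h.offer_yt (Or.inl hc) (fun e => hqz e.symm) hqx'))
    · exact Or.inr (Or.inl (h.offer_yt (Or.inr hc) (fun e => hqz e.symm) hqx'))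
    · exact absurd hc hpz
  by_cases hpp : priv j p
  · exact key hp hq hpq hpp
  by_cases hqq : priv j q
  · exact (key hq hp hpq.symm hqq).symm
  -- no vertex is private
  have nx : ∀ {u : Vx}, ¬ priv j u → (∀ c, x j c ≠ u) ∧ y j ≠ u ∧ t j ≠ u ∧ z j ≠ u := by
    intro u hu
    exact ⟨fun c e => hu (Or.inl ⟨c, e.symm⟩), fun e => hu (Or.inr (Or.inl e.symm)),
      fun e => hu (Or.inr (Or.inr (Or.inl e.symm))),
      fun e => hu (Or.inr (Or.inr (Or.inr e.symm)))⟩
  obtain ⟨p1, p2, p3, p4⟩ := nx hpp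
  obtain ⟨q1, q2, q3, q4⟩ := nx hqq
  obtain ⟨r, hr⟩ := h.lad
  have hFP : ∀ W' C', FP j W C W' C' := by
    rintro W' C' c' (h' | h')
    · exact absurd h' (h.ux c').2
    · exact absurd h'.cy h.uy.2
  have e1 := sw_unc (h.ux true)
  have e2 := sw_unc (h.ux false)
  have e3 := sw_unc h.uy
  have e4 := sw_unc h.ut
  rcases hr.resp b_g b_inj hd hp hq hpq with ⟨a1, a2⟩ | ⟨k, hk, hk'⟩ | hl | hl
  · refine Or.inl ⟨Or.inl ?_, Or.inl ?_, hFP _ _, hFP _ _, ?_⟩
    · exact ⟨fun c => (h.ux c).other (p1 c) (q1 c), h.uy.other p2 q2, h.ut.other p3 q3,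
        h.uz.other p4 q4, ⟨r, hr.neutral a1 a2⟩⟩
    · exact ⟨fun c => (h.ux c).other (q1 c) (p1 c), h.uy.other q2 p2, h.ut.other q3 p3,
        h.uz.other q4 p4, ⟨r, hr.neutral a2 a1⟩⟩
    · intro _ r' hr'
      rw [← hr.uniq hr']
      exact ⟨a1, a2⟩
  · exact Or.inr (Or.inr (Or.inr (Or.inr ⟨r, k, hr, hk, hk'⟩)))
  · refine Or.inr (Or.inl (Or.inl ⟨h.uz.other p4 q4, ?_⟩))
    rw [PP_eq, sw_else (p1 _) (q1 _), sw_else (p1 _) (q1 _), sw_else p2 q2, sw_else p3 q3,
      e1, e2, e3, e4]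
    linarith
  · refine Or.inr (Or.inr (Or.inl (Or.inl ⟨h.uz.other q4 p4, ?_⟩)))
    rw [PP_eq, sw_else (q1 _) (p1 _), sw_else (q1 _) (p1 _), sw_else q2 p2, sw_else q3 p3,
      e1, e2, e3, e4]
    linarith

theorem IntX.out {c : Bool} (hd : Disjoint W C) (h : IntX j c W C) (hp : Unc W C p)
    (hq : Unc W C q) (hpq : p ≠ q) : Out m j W C p q := by
  have ey := sw_C (W := W) h.cy
  have ex : sw W C (x j (!c)) = 1 := sw_W hd h.wx
  have ex' : sw W C (x j c) = 1 / 2 := sw_unc h.ux
  have nW : ∀ {u : Vx}, Unc W C u → x j (!c) ≠ u := fun hu e => hu.1 (e ▸ h.wx)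
  have nC : ∀ {u : Vx}, Unc W C u → y j ≠ u := fun hu e => hu.2 (e ▸ h.cy)
  have hprod : ∀ W' C', sw W' C' (x j true) * sw W' C' (x j false) =
      sw W' C' (x j c) * sw W' C' (x j (!c)) := by
    intro W' C'
    cases c
    · rw [mul_comm]; rfl
    · rfl
  -- Waiter offers `z j`
  have hz : ∀ {q : Vx}, Unc W C q → z j ≠ q → x j c ≠ q →
      Bad m j (insert q W) (insert (z j) C) := by
    intro q hq h1 h2
    refine Or.inr ⟨Finset.mem_insert_self _ _, ?_⟩
    rw [PP_eq, hprod, sw_else (by simp) h2, sw_else (by simp) (nW hq),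
      sw_else (by simp) (nC hq), ey, ex, ex']
    norm_num
  -- Waiter offers `x j c`
  have hx : ∀ {q : Vx}, Unc W C q → z j ≠ q → x j c ≠ q →
      Bad m j (insert q W) (insert (x j c) C) := by
    intro q hq h1 h2
    refine Or.inl ⟨h.uz.other (by simp) h1, ?_⟩
    rw [PP_eq, hprod, sw_take, sw_else (by simp) (nC hq), ey]
    norm_num
  have hxz : Good m j (insert (z j) W) (insert (x j c) C) ∧
      FP j W C (insert (z j) W) (insert (x j c) C) := by
    refine ⟨Or.inr (Or.inr (Or.inr ⟨Finset.mem_insert_self _ _,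
      Finset.mem_insert_of_mem h.cy, ⟨c, Finset.mem_insert_self _ _⟩⟩)), ?_⟩
    rintro c' (h' | h')
    · exact Or.inl (Finset.mem_insert_of_mem h')
    · left
      by_cases hcc : c' = c
      · rw [hcc]
        exact Finset.mem_insert_self _ _
      · exfalso
        have : c' = !c := by cases c <;> cases c' <;> simp_all
        exact h'.ux.1 (this ▸ h.wx)
  by_cases hpz : p = z j
  · subst hpz
    by_cases hqx : q = x j c
    · subst hqx
      exact Or.inr (Or.inr (Or.inr (Or.inl ⟨Or.inr (Or.inr (Or.inr rfl)), Or.inl ⟨c, rfl⟩,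
        Or.inr hxz⟩)))
    · exact Or.inr (Or.inl (hz hq hpq (fun e => hqx e.symm)))
  by_cases hqz : q = z j
  · subst hqz
    by_cases hpx : p = x j c
    · subst hpx
      exact Or.inr (Or.inr (Or.inr (Or.inl ⟨Or.inl ⟨c, rfl⟩, Or.inr (Or.inr (Or.inr rfl)),
        Or.inl hxz⟩)))
    · exact Or.inr (Or.inr (Or.inl (hz hp hpq.symm (fun e => hpx e.symm))))
  by_cases hpx : p = x j c
  · subst hpx
    exact Or.inr (Or.inl (hx hq (fun e => hqz e.symm) hpq))
  by_cases hqx : q = x j c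
  · subst hqx
    exact Or.inr (Or.inr (Or.inl (hx hp (fun e => hpz e.symm) hpq.symm)))
  -- neutral
  have hN : ∀ {p q : Vx}, p ≠ z j → q ≠ z j → p ≠ x j c → q ≠ x j c →
      IntX j c (insert q W) (insert p C) := by
    intro p q h1 h2 h3 h4
    exact ⟨Finset.mem_insert_of_mem h.wx, h.ux.other (fun e => h3 e.symm) (fun e => h4 e.symm),
      Finset.mem_insert_of_mem h.cy, h.uz.other (fun e => h1 e.symm) (fun e => h2 e.symm)⟩
  have hF : ∀ {W' C' : Finset Vx}, C ⊆ C' → IntX j c W' C' → FP j W C W' C' := by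
    rintro W' C' hC h1 c' (h' | h')
    · exact Or.inl (hC h')
    · by_cases hcc : c' = c
      · rw [hcc]
        exact Or.inr h1
      · exfalso
        have : c' = !c := by cases c <;> cases c' <;> simp_all
        exact h'.ux.1 (this ▸ h.wx)
  refine Or.inl ⟨Or.inr (Or.inl ⟨c, hN hpz hqz hpx hqx⟩), Or.inr (Or.inl ⟨c, hN hqz hpz hqx hpx⟩),
    hF (Finset.subset_insert _ _) (hN hpz hqz hpx hqx),
    hF (Finset.subset_insert _ _) (hN hqz hpz hqx hpx), ?_⟩
  intro hf
  exact absurd h.wx (hf.ux _).1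

theorem IntY.out (hd : Disjoint W C) (h : IntY m j W C) (hp : Unc W C p)
    (hq : Unc W C q) (hpq : p ≠ q) : Out m j W C p q := by
  obtain ⟨c, hc⟩ := h.cx
  obtain ⟨r, hr⟩ := h.lad
  have ex : sw W C (x j c) = 0 := sw_C hc
  have et : sw W C (t j) = 1 := sw_W hd h.wt
  have ey : sw W C (y j) = 1 / 2 := sw_unc h.uy
  have nx : ∀ {u : Vx}, Unc W C u → x j c ≠ u := fun hu e => hu.2 (e ▸ hc)
  have nt : ∀ {u : Vx}, Unc W C u → t j ≠ u := fun hu e => hu.1 (e ▸ h.wt)
  have hprod : ∀ {p q : Vx}, Unc W C p → Unc W C q →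
      sw (insert q W) (insert p C) (x j true) * sw (insert q W) (insert p C) (x j false) = 0 := by
    intro p q hp hq
    cases c
    · rw [sw_else (v := x j false) (nx hp) (nx hq), ex, mul_zero]
    · rw [sw_else (v := x j true) (nx hp) (nx hq), ex, zero_mul]
  have hz : ∀ {q : Vx}, Unc W C q → z j ≠ q → y j ≠ q →
      Bad m j (insert q W) (insert (z j) C) := by
    intro q hq h1 h2
    refine Or.inr ⟨Finset.mem_insert_self _ _, ?_⟩
    have hl := hr.lam_resp (p := z j) b_g b_inj hd hq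
    rw [PP_eq, hprod h.uz hq, sw_else (by simp) h2, sw_else (by simp) (nt hq), ey, et]
    linarith
  have hy : ∀ {q : Vx}, Unc W C q → z j ≠ q → y j ≠ q →
      Bad m j (insert q W) (insert (y j) C) := by
    intro q hq h1 h2
    refine Or.inl ⟨h.uz.other (by simp) h1, ?_⟩
    rw [PP_eq, hprod h.uy hq, sw_take]
    norm_num
  have hyz : Good m j (insert (z j) W) (insert (y j) C) ∧
      FP j W C (insert (z j) W) (insert (y j) C) := by
    refine ⟨Or.inr (Or.inr (Or.inr ⟨Finset.mem_insert_self _ _,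
      Finset.mem_insert_self _ _, ⟨c, Finset.mem_insert_of_mem hc⟩⟩)), ?_⟩
    rintro c' (h' | h')
    · exact Or.inl (Finset.mem_insert_of_mem h')
    · exact absurd h'.cy h.uy.2
  by_cases hpz : p = z j
  · subst hpz
    by_cases hqy : q = y j
    · subst hqy
      exact Or.inr (Or.inr (Or.inr (Or.inl ⟨Or.inr (Or.inr (Or.inr rfl)),
        Or.inr (Or.inl rfl), Or.inr hyz⟩)))
    · exact Or.inr (Or.inl (hz hq hpq (fun e => hqy e.symm)))
  by_cases hqz : q = z j
  · subst hqz
    by_cases hpy : p = y j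
    · subst hpy
      exact Or.inr (Or.inr (Or.inr (Or.inl ⟨Or.inr (Or.inl rfl),
        Or.inr (Or.inr (Or.inr rfl)), Or.inl hyz⟩)))
    · exact Or.inr (Or.inr (Or.inl (hz hp hpq.symm (fun e => hpy e.symm))))
  by_cases hpy : p = y j
  · subst hpy
    exact Or.inr (Or.inl (hy hq (fun e => hqz e.symm) hpq))
  by_cases hqy : q = y j
  · subst hqy
    exact Or.inr (Or.inr (Or.inl (hy hp (fun e => hpz e.symm) hpq.symm)))
  have hF : ∀ {W' C' : Finset Vx}, C ⊆ C' → FP j W C W' C' := by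
    rintro W' C' hC c' (h' | h')
    · exact Or.inl (hC h')
    · exact absurd h'.cy h.uy.2
  have hB : ∀ {p q : Vx}, Unc W C p → Unc W C q → p ≠ z j → q ≠ z j → p ≠ y j → q ≠ y j →
      lam m b (insert q W) (insert p C) < 1 → Bad m j (insert q W) (insert p C) := by
    intro p q hp hq h1 h2 h3 h4 hl
    refine Or.inl ⟨h.uz.other (fun e => h1 e.symm) (fun e => h2 e.symm), ?_⟩
    rw [PP_eq, hprod hp hq, sw_else (fun e => h3 e.symm) (fun e => h4 e.symm),
      sw_else (nt hp) (nt hq), ey, et]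
    linarith
  rcases hr.resp b_g b_inj hd hp hq hpq with ⟨a1, a2⟩ | ⟨k, hk, hk'⟩ | hl | hl
  · refine Or.inl ⟨Or.inr (Or.inr (Or.inl ?_)), Or.inr (Or.inr (Or.inl ?_)),
      hF (Finset.subset_insert _ _), hF (Finset.subset_insert _ _), ?_⟩
    · exact ⟨⟨c, Finset.mem_insert_of_mem hc⟩, Finset.mem_insert_of_mem h.wt,
        h.uy.other (fun e => hpy e.symm) (fun e => hqy e.symm),
        h.uz.other (fun e => hpz e.symm) (fun e => hqz e.symm), ⟨r, hr.neutral a1 a2⟩⟩
    · exact ⟨⟨c, Finset.mem_insert_of_mem hc⟩, Finset.mem_insert_of_mem h.wt,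
        h.uy.other (fun e => hqy e.symm) (fun e => hpy e.symm),
        h.uz.other (fun e => hqz e.symm) (fun e => hpz e.symm), ⟨r, hr.neutral a2 a1⟩⟩
    · intro hf
      exact absurd h.wt hf.ut.1
  · exact Or.inr (Or.inr (Or.inr (Or.inr ⟨r, k, hr, hk, hk'⟩)))
  · exact Or.inr (Or.inl (hB hp hq hpz hqz hpy hqy hl))
  · exact Or.inr (Or.inr (Or.inl (hB hq hp hqz hpz hqy hpy hl)))

theorem Settled.out (h : Settled j W C) : Out m j W C p q := by
  obtain ⟨c, hc⟩ := h.cx
  have hF : ∀ {W' C' : Finset Vx}, C ⊆ C' → FP j W C W' C' := by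
    rintro W' C' hC c' (h' | h')
    · exact Or.inl (hC h')
    · exact absurd h.wz h'.uz.1
  have hG : ∀ {p q : Vx}, Good m j (insert q W) (insert p C) := fun {p q} =>
    Or.inr (Or.inr (Or.inr ⟨Finset.mem_insert_of_mem h.wz, Finset.mem_insert_of_mem h.cy,
      ⟨c, Finset.mem_insert_of_mem hc⟩⟩))
  refine Or.inl ⟨hG, hG, hF (Finset.subset_insert _ _), hF (Finset.subset_insert _ _), ?_⟩
  intro hf
  exact absurd h.wz hf.uz.1

/-- All cases together. -/
theorem Good.out (hd : Disjoint W C) (h : Good m j W C) (hp : Unc W C p)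
    (hq : Unc W C q) (hpq : p ≠ q) : Out m j W C p q := by
  rcases h with h | ⟨c, h⟩ | h | h
  · exact h.out hd hp hq hpq
  · exact h.out hd hp hq hpq
  · exact h.out hd hp hq hpq
  · exact h.out

end Pool.Agent.H235R3.WC
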